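import Mathlib

/-!
# Continued fractions
-/

set_option autoImplicit false

namespace Pool.Agent.H607.CF

open Finset Filter Topology

/-- the complete quotients of `x` -/
noncomputable def cq (x : ℝ) : ℕ → ℝ
  | 0 => x
  | n + 1 => 1 / Int.fract (cq x n)

/-- the partial quotients of `x` -/
noncomputable def pq (x : ℝ) (n : ℕ) : ℤ := ⌊cq x n⌋

/-- `t` is the sequence of the complete quotients belonging to the partial quotients `c` -/
def IsVal (c : ℕ → ℤ) (t : ℕ → ℝ) : Prop := ∀ n, t n = c n + 1 / t (n + 1) ∧ 1 < t (n + 1)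

/-- the partial quotients after the first one are positive -/
def Ok (c : ℕ → ℤ) : Prop := ∀ n, 1 ≤ c (n + 1)

theorem exists_val (c : ℕ → ℤ) (hc : Ok c) : ∃ t, IsVal c t := by
  set K : Set (ℕ → ℝ) := Set.pi Set.univ fun n => Set.Icc (c n : ℝ) (c n + 1) with hK
  have hKc : IsCompact K := isCompact_univ_pi fun n => isCompact_Icc
  set S : ℕ → Set (ℕ → ℝ) := fun N => K ∩ {t | ∀ j < N, t j * t (j + 1) = c j * t (j + 1) + 1} with hS
  have hSclosed : ∀ N, IsClosed (S N) := by
    intro N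
    apply hKc.isClosed.inter
    have : {t : ℕ → ℝ | ∀ j < N, t j * t (j + 1) = c j * t (j + 1) + 1} =
        ⋂ j ∈ {j | j < N}, {t : ℕ → ℝ | t j * t (j + 1) = c j * t (j + 1) + 1} := by
      ext t
      simp
    rw [this]
    refine isClosed_biInter fun j _ => ?_
    exact isClosed_eq (by fun_prop) (by fun_prop)
  have hSne : ∀ N, (S N).Nonempty := by
    intro N
    -- backwards recursion
    have key : ∀ M : ℕ, M ≤ N → ∃ t : ℕ → ℝ, t ∈ K ∧
        ∀ j, N - M ≤ j → j < N → t j * t (j + 1) = c j * t (j + 1) + 1 := by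
      intro M
      induction M with
      | zero =>
        intro _
        refine ⟨fun n => c n + 1, ?_, fun j h1 h2 => by omega⟩
        rw [hK, Set.mem_univ_pi]
        intro n
        constructor <;> linarith
      | succ M ih =>
        intro hM
        obtain ⟨t, ht1, ht2⟩ := ih (by omega)
        set j₀ := N - (M + 1) with hj₀
        have htj : 1 ≤ t (j₀ + 1) := by
          have h1 := (Set.mem_univ_pi.1 ht1 (j₀ + 1)).1
          have h2 : (1 : ℝ) ≤ c (j₀ + 1) := by exact_mod_cast hc j₀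
          linarith
        refine ⟨Function.update t j₀ (c j₀ + 1 / t (j₀ + 1)), ?_, ?_⟩
        · rw [hK, Set.mem_univ_pi]
          intro n
          by_cases hn : n = j₀
          · subst hn
            rw [Function.update_self]
            have h1 : 0 < 1 / t (j₀ + 1) := by positivity
            have h2 : 1 / t (j₀ + 1) ≤ 1 := by
              rw [div_le_one (by linarith)]
              exact htj
            constructor <;> linarith
          · rw [Function.update_of_ne hn]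
            exact Set.mem_univ_pi.1 ht1 n
        · intro j h1 h2
          by_cases hj : j = j₀
          · subst hj
            rw [Function.update_self, Function.update_of_ne (by omega)]
            have : t (j₀ + 1) ≠ 0 := by linarith
            field_simp
          · rw [Function.update_of_ne hj, Function.update_of_ne (by omega)]
            exact ht2 j (by omega) h2
    obtain ⟨t, ht1, ht2⟩ := key N le_rfl
    exact ⟨t, ht1, fun j hj => ht2 j (by omega) hj⟩
  obtain ⟨t, ht⟩ := IsCompact.nonempty_iInter_of_sequence_nonempty_isCompact_isClosed S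
    (fun N => Set.inter_subset_inter_right _ fun t ht j hj => ht j (by omega)) hSne
    (hKc.of_isClosed_subset (hSclosed 0) Set.inter_subset_left) hSclosed
  rw [Set.mem_iInter] at ht
  have hK' : ∀ n, t n ∈ Set.Icc (c n : ℝ) (c n + 1) := Set.mem_univ_pi.1 (ht 0).1
  have hpos : ∀ n, 0 < t (n + 1) := by
    intro n
    have h1 := (hK' (n + 1)).1
    have h2 : (1 : ℝ) ≤ c (n + 1) := by exact_mod_cast hc n
    linarith
  have heq : ∀ n, t n = c n + 1 / t (n + 1) := by
    intro n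
    have h1 := (ht (n + 1)).2 n (by omega)
    have h2 := (hpos n).ne'
    field_simp
    linarith
  refine ⟨t, fun n => ⟨heq n, ?_⟩⟩
  have h1 := heq (n + 1)
  have h2 : 0 < 1 / t (n + 1 + 1) := by
    have := hpos (n + 1)
    positivity
  have h3 : (1 : ℝ) ≤ c (n + 1) := by exact_mod_cast hc n
  linarith

lemma IsVal.fract {c : ℕ → ℤ} {t : ℕ → ℝ} (h : IsVal c t) (n : ℕ) :
    ⌊t n⌋ = c n ∧ Int.fract (t n) = 1 / t (n + 1) := by
  have h1 := (h n).1
  have h2 := (h n).2
  have h3 : 0 < 1 / t (n + 1) := by positivity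
  have h4 : 1 / t (n + 1) < 1 := by
    rw [div_lt_one (by linarith)]
    exact h2
  have h5 : ⌊t n⌋ = c n := by
    rw [Int.floor_eq_iff]
    constructor <;> linarith
  refine ⟨h5, ?_⟩
  rw [← Int.self_sub_floor, h5]
  linarith

lemma IsVal.cq_eq {c : ℕ → ℤ} {t : ℕ → ℝ} (h : IsVal c t) (n : ℕ) : cq (t 0) n = t n := by
  induction n with
  | zero => rfl
  | succ n ih =>
    rw [cq, ih, (h.fract n).2, one_div_one_div]

lemma IsVal.pq_eq {c : ℕ → ℤ} {t : ℕ → ℝ} (h : IsVal c t) (n : ℕ) : pq (t 0) n = c n := by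
  rw [pq, h.cq_eq, (h.fract n).1]

lemma IsVal.ok {c : ℕ → ℤ} {t : ℕ → ℝ} (h : IsVal c t) : Ok c := by
  intro n
  rw [← (h.fract (n + 1)).1]
  rw [Int.le_floor]
  have := (h n).2
  push_cast
  linarith

lemma irr_cq {x : ℝ} (hx : Irrational x) (n : ℕ) : Irrational (cq x n) := by
  induction n with
  | zero => exact hx
  | succ n ih =>
    rw [cq, one_div]
    apply Irrational.inv
    rw [← Int.self_sub_floor]
    exact ih.sub_intCast _

lemma isVal_of_irrational {x : ℝ} (hx : Irrational x) : IsVal (pq x) (cq x) := by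
  intro n
  have h1 := irr_cq hx n
  have h2 : 0 < Int.fract (cq x n) := by
    rcases (Int.fract_nonneg (cq x n)).lt_or_eq with h | h
    · exact h
    · exfalso
      have h3 : cq x n = ⌊cq x n⌋ := by
        have := Int.self_sub_floor (cq x n)
        linarith
      apply h1
      exact ⟨⌊cq x n⌋, by rw [Rat.cast_intCast]; exact h3.symm⟩
  have h3 := Int.fract_lt_one (cq x n)
  constructor
  · rw [cq, one_div_one_div, pq]
    exact (Int.floor_add_fract _).symm
  · rw [cq, lt_div_iff₀ h2]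
    linarith

/-- the numerators of the convergents -/
def Pd (c : ℕ → ℤ) : ℕ → ℤ
  | 0 => 1
  | 1 => c 0
  | n + 2 => c (n + 1) * Pd c (n + 1) + Pd c n

/-- the denominators of the convergents -/
def Qd (c : ℕ → ℤ) : ℕ → ℤ
  | 0 => 0
  | 1 => 1
  | n + 2 => c (n + 1) * Qd c (n + 1) + Qd c n

lemma det (c : ℕ → ℤ) (n : ℕ) : Pd c (n + 1) * Qd c n - Pd c n * Qd c (n + 1) = (-1) ^ (n + 1) := by
  induction n with
  | zero => simp [Pd, Qd]
  | succ n ih =>
    rw [show n + 1 + 1 = n + 2 by ring, Pd, Qd, pow_succ, ← ih]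
    ring

lemma Qd_pos {c : ℕ → ℤ} (hc : Ok c) (n : ℕ) : 1 ≤ Qd c (n + 1) ∧ 0 ≤ Qd c n := by
  induction n with
  | zero => simp [Qd]
  | succ n ih =>
    refine ⟨?_, by linarith [ih.1]⟩
    rw [show n + 1 + 1 = n + 2 by ring, Qd]
    have := hc n
    nlinarith [ih.1, ih.2]

lemma Qd_le_succ {c : ℕ → ℤ} (hc : Ok c) (n : ℕ) : Qd c n ≤ Qd c (n + 1) := by
  cases n with
  | zero => simp [Qd]
  | succ n =>
    rw [show n + 1 + 1 = n + 2 by ring, Qd]
    have := hc n
    have h2 := Qd_pos hc n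
    nlinarith

lemma Qd_double {c : ℕ → ℤ} (hc : Ok c) (n : ℕ) : 2 * Qd c (n + 1) ≤ Qd c (n + 3) := by
  rw [show n + 3 = (n + 1) + 2 by ring, Qd]
  have := hc (n + 1)
  have h2 := Qd_pos hc (n + 1)
  have h3 := Qd_le_succ hc (n + 1)
  nlinarith

lemma Qd_succ_le {c : ℕ → ℤ} (hc : Ok c) (n : ℕ) : Qd c (n + 2) ≤ (c (n + 1) + 1) * Qd c (n + 1) := by
  rw [Qd]
  have h3 := Qd_le_succ hc n
  linarith

lemma IsVal.formula {c : ℕ → ℤ} {t : ℕ → ℝ} (h : IsVal c t) (n : ℕ) :
    t 0 * (Qd c (n + 1) * t (n + 1) + Qd c n) = Pd c (n + 1) * t (n + 1) + Pd c n := by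
  induction n with
  | zero =>
    have h1 := (h 0).1
    have h2 : t (0 + 1) ≠ 0 := by have := (h 0).2; linarith
    simp only [Pd, Qd, Int.cast_one, Int.cast_zero, add_zero, one_mul]
    rw [h1]
    field_simp
  | succ n ih =>
    have h1 := (h (n + 1)).1
    have h2 : t (n + 1 + 1) ≠ 0 := by have := (h (n + 1)).2; linarith
    rw [show n + 1 + 1 = n + 2 by ring] at h1 h2 ⊢
    rw [Pd, Qd]
    push_cast
    have e1 : ((c (n + 1) : ℝ) * Qd c (n + 1) + Qd c n) * t (n + 2) + Qd c (n + 1) =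
        t (n + 2) * (Qd c (n + 1) * t (n + 1) + Qd c n) := by
      rw [h1]
      field_simp
      ring
    have e2 : ((c (n + 1) : ℝ) * Pd c (n + 1) + Pd c n) * t (n + 2) + Pd c (n + 1) =
        t (n + 2) * (Pd c (n + 1) * t (n + 1) + Pd c n) := by
      rw [h1]
      field_simp
      ring
    rw [e1, e2, ← ih]
    ring

lemma IsVal.den_pos {c : ℕ → ℤ} {t : ℕ → ℝ} (h : IsVal c t) (n : ℕ) :
    0 < (Qd c (n + 1) : ℝ) * t (n + 1) + Qd c n := by
  have hc := h.ok
  have h1 : (1 : ℝ) ≤ Qd c (n + 1) := by exact_mod_cast (Qd_pos hc n).1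
  have h2 : (0 : ℝ) ≤ Qd c n := by exact_mod_cast (Qd_pos hc n).2
  have h3 := (h n).2
  nlinarith

/-- the distance from a convergent -/
lemma IsVal.approx {c : ℕ → ℤ} {t : ℕ → ℝ} (h : IsVal c t) (n : ℕ) :
    t 0 = Pd c (n + 1) / Qd c (n + 1) -
      (-1) ^ (n + 1) / ((Qd c (n + 1) : ℝ) ^ 2 * (t (n + 1) + Qd c n / Qd c (n + 1))) := by
  have hc := h.ok
  have h1 : (1 : ℝ) ≤ Qd c (n + 1) := by exact_mod_cast (Qd_pos hc n).1
  have h0 : (Qd c (n + 1) : ℝ) ≠ 0 := by linarith
  have hd := h.den_pos n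
  have hdet : (Pd c (n + 1) : ℝ) * Qd c n - Pd c n * Qd c (n + 1) = (-1) ^ (n + 1) := by
    exact_mod_cast congrArg (fun z : ℤ => (z : ℝ)) (det c n)
  have hf := h.formula n
  have e1 : (Qd c (n + 1) : ℝ) ^ 2 * (t (n + 1) + Qd c n / Qd c (n + 1)) =
      Qd c (n + 1) * (Qd c (n + 1) * t (n + 1) + Qd c n) := by
    field_simp
  rw [e1, ← hdet]
  have h2 : t 0 = (Pd c (n + 1) * t (n + 1) + Pd c n) / (Qd c (n + 1) * t (n + 1) + Qd c n) := by
    rw [eq_div_iff hd.ne']
    exact hf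
  rw [h2]
  have hd0 := hd.ne'
  rw [div_eq_iff hd0, sub_mul, div_mul_eq_mul_div, div_mul_eq_mul_div, div_sub_div _ _ h0
    (mul_ne_zero h0 hd0), eq_div_iff (mul_ne_zero h0 (mul_ne_zero h0 hd0))]
  ring

lemma Pd_congr {c c' : ℕ → ℤ} (n : ℕ) (h : ∀ j < n, c j = c' j) : ∀ m ≤ n, Pd c m = Pd c' m := by
  intro m
  induction m using Nat.strong_induction_on with
  | _ m ih =>
    intro hm
    match m, ih with
    | 0, _ => rfl
    | 1, _ => simp only [Pd]; exact h 0 (by omega)
    | m + 2, ih =>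
      rw [Pd, Pd, ih (m + 1) (by omega) (by omega), ih m (by omega) (by omega), h (m + 1) (by omega)]

lemma Qd_congr {c c' : ℕ → ℤ} (n : ℕ) (h : ∀ j < n, c j = c' j) : ∀ m ≤ n, Qd c m = Qd c' m := by
  intro m
  induction m using Nat.strong_induction_on with
  | _ m ih =>
    intro hm
    match m, ih with
    | 0, _ => rfl
    | 1, _ => rfl
    | m + 2, ih =>
      rw [Qd, Qd, ih (m + 1) (by omega) (by omega), ih m (by omega) (by omega), h (m + 1) (by omega)]

/-- numbers with the same first partial quotients -/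
lemma IsVal.close {c c' : ℕ → ℤ} {t t' : ℕ → ℝ} (h : IsVal c t) (h' : IsVal c' t') (n : ℕ)
    (hcc : ∀ j < n + 1, c j = c' j) : |t 0 - t' 0| ≤ 1 / (Qd c (n + 1) : ℝ) ^ 2 := by
  have hP1 := Pd_congr (n + 1) hcc (n + 1) le_rfl
  have hP0 := Pd_congr (n + 1) hcc n (by omega)
  have hQ1 := Qd_congr (n + 1) hcc (n + 1) le_rfl
  have hQ0 := Qd_congr (n + 1) hcc n (by omega)
  have hc := h.ok
  have h1 : (1 : ℝ) ≤ Qd c (n + 1) := by exact_mod_cast (Qd_pos hc n).1
  have h2 : (0 : ℝ) ≤ Qd c n := by exact_mod_cast (Qd_pos hc n).2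
  have hf := h.formula n
  have hf' := h'.formula n
  have hd := h.den_pos n
  have hd' := h'.den_pos n
  rw [← hP1, ← hP0, ← hQ1, ← hQ0] at hf'
  rw [← hQ1, ← hQ0] at hd'
  have ht := (h n).2
  have ht' := (h' n).2
  have hdet : (Pd c (n + 1) : ℝ) * Qd c n - Pd c n * Qd c (n + 1) = (-1) ^ (n + 1) := by
    exact_mod_cast congrArg (fun z : ℤ => (z : ℝ)) (det c n)
  set Q := (Qd c (n + 1) : ℝ) with hQ
  set Q' := (Qd c n : ℝ) with hQ'
  have e1 : t 0 - t' 0 = (-1) ^ (n + 1) * (t (n + 1) - t' (n + 1)) /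
      ((Q * t (n + 1) + Q') * (Q * t' (n + 1) + Q')) := by
    rw [eq_div_iff (mul_ne_zero hd.ne' hd'.ne'), ← hdet]
    linear_combination (Q * t' (n + 1) + Q') * hf - (Q * t (n + 1) + Q') * hf'
  rw [e1, abs_div, abs_mul, abs_pow, abs_neg, abs_one, one_pow, one_mul,
    abs_of_pos (mul_pos hd hd')]
  rw [div_le_div_iff₀ (mul_pos hd hd') (by positivity)]
  have h3 : |t (n + 1) - t' (n + 1)| ≤ t (n + 1) * t' (n + 1) := by
    rw [abs_le]
    constructor <;> nlinarith
  have h4 : Q ^ 2 * (t (n + 1) * t' (n + 1)) ≤ (Q * t (n + 1) + Q') * (Q * t' (n + 1) + Q') := by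
    have : 0 ≤ Q * t (n + 1) * Q' := by positivity
    have : 0 ≤ Q * t' (n + 1) * Q' := by positivity
    nlinarith [mul_nonneg h2 h2]
  calc |t (n + 1) - t' (n + 1)| * Q ^ 2 ≤ (t (n + 1) * t' (n + 1)) * Q ^ 2 := by gcongr
    _ ≤ 1 * ((Q * t (n + 1) + Q') * (Q * t' (n + 1) + Q')) := by linarith

lemma Qd_ge {c : ℕ → ℤ} (hc : Ok c) (n : ℕ) : (n : ℤ) ≤ Qd c (n + 2) := by
  induction n using Nat.strong_induction_on with
  | _ n ih =>
    match n, ih with
    | 0, _ => exact_mod_cast (Qd_pos hc 2).2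
    | 1, _ => exact_mod_cast (Qd_pos hc 2).1
    | n + 2, ih =>
      have h1 := Qd_double hc (n + 1)
      have h2 := ih n (by omega)
      have h3 := (Qd_pos hc (n + 1)).1
      rcases Nat.eq_zero_or_pos n with rfl | hn
      · push_cast
        norm_num at h1 h3 ⊢
        linarith
      · have : (1 : ℤ) ≤ n := by exact_mod_cast hn
        rw [show n + 1 + 3 = n + 2 + 2 by ring, show n + 1 + 1 = n + 2 by ring] at h1
        push_cast
        rcases Nat.lt_or_ge n 2 with h4 | h4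
        · have hn1 : n = 1 := by omega
          subst hn1
          have h5 := Qd_double hc 0
          have h6 := (Qd_pos hc 0).1
          norm_num at h1 h5 h6 ⊢
          linarith
        · have : (2 : ℤ) ≤ n := by exact_mod_cast h4
          linarith

lemma IsVal.unique {c : ℕ → ℤ} {t t' : ℕ → ℝ} (h : IsVal c t) (h' : IsVal c t') : t 0 = t' 0 := by
  by_contra hne
  have hpos : 0 < |t 0 - t' 0| := abs_pos.2 (sub_ne_zero.2 hne)
  obtain ⟨n, hn⟩ := exists_nat_gt (1 / |t 0 - t' 0|)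
  have h1 := h.close h' (n + 1) (fun _ _ => rfl)
  have h2 : (n : ℝ) ≤ Qd c (n + 2) := by exact_mod_cast Qd_ge h.ok n
  have h3 : (1 : ℝ) ≤ Qd c (n + 2) := by exact_mod_cast (Qd_pos h.ok (n + 1)).1
  rw [show n + 1 + 1 = n + 2 by ring] at h1
  have h4 : 1 / (Qd c (n + 2) : ℝ) ^ 2 ≤ 1 / (Qd c (n + 2) : ℝ) := by
    apply one_div_le_one_div_of_le (by linarith)
    nlinarith
  have h5 : 1 / |t 0 - t' 0| < Qd c (n + 2) := lt_of_lt_of_le hn h2
  have h6 : 1 / (Qd c (n + 2) : ℝ) < |t 0 - t' 0| := by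
    rw [div_lt_iff₀ (by linarith)]
    rw [div_lt_iff₀ hpos] at h5
    linarith
  linarith

open Classical in
/-- the value of a continued fraction -/
noncomputable def V (c : ℕ → ℤ) : ℝ := if h : ∃ t, IsVal c t then h.choose 0 else 0

lemma IsVal.V_eq {c : ℕ → ℤ} {t : ℕ → ℝ} (h : IsVal c t) : V c = t 0 := by
  have hex : ∃ t, IsVal c t := ⟨t, h⟩
  unfold V
  rw [dif_pos hex]
  exact hex.choose_spec.unique h

lemma V_pq {x : ℝ} (hx : Irrational x) : V (pq x) = x := (isVal_of_irrational hx).V_eq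

lemma IsVal.tail {c : ℕ → ℤ} {t : ℕ → ℝ} (h : IsVal c t) (n : ℕ) :
    IsVal (fun j => c (n + j)) (fun j => t (n + j)) := fun j => h (n + j)

lemma IsVal.V_tail {c : ℕ → ℤ} {t : ℕ → ℝ} (h : IsVal c t) (n : ℕ) :
    V (fun j => c (n + j)) = t n := (h.tail n).V_eq

lemma Ok.update {c : ℕ → ℤ} (hc : Ok c) (n : ℕ) (A : ℤ) (hA : 1 ≤ A) : Ok (Function.update c n A) := by
  intro m
  by_cases hm : m + 1 = n
  · rw [hm, Function.update_self]
    exact hA
  · rw [Function.update_of_ne hm]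
    exact hc m

lemma Ok.tail_gt {c : ℕ → ℤ} (hc : Ok c) (n : ℕ) : 1 < V (fun j => c (n + 1 + j)) := by
  obtain ⟨t, ht⟩ := exists_val c hc
  rw [ht.V_tail (n + 1)]
  exact (ht n).2

/-- the value after a change of one partial quotient -/
lemma V_update {c : ℕ → ℤ} (hc : Ok c) (n : ℕ) (A : ℤ) (hA : 1 ≤ A) :
    V (Function.update c (n + 1) A) = Pd c (n + 1) / Qd c (n + 1) -
      (-1) ^ (n + 1) / ((Qd c (n + 1) : ℝ) ^ 2 *
        (A + (1 / V (fun j => c (n + 2 + j)) + Qd c n / Qd c (n + 1)))) := by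
  obtain ⟨t, ht⟩ := exists_val _ (hc.update (n + 1) A hA)
  have h1 := ht.approx n
  have hagree : ∀ j < n + 1, c j = Function.update c (n + 1) A j := fun j hj => by
    rw [Function.update_of_ne (by omega)]
  rw [← Pd_congr (n + 1) hagree (n + 1) le_rfl, ← Qd_congr (n + 1) hagree (n + 1) le_rfl,
    ← Qd_congr (n + 1) hagree n (by omega)] at h1
  have h2 : t (n + 1) = A + 1 / V (fun j => c (n + 2 + j)) := by
    have h3 := (ht (n + 1)).1
    rw [Function.update_self] at h3
    have h4 := ht.V_tail (n + 2)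
    have h5 : (fun j => Function.update c (n + 1) A (n + 2 + j)) = fun j => c (n + 2 + j) := by
      ext j
      rw [Function.update_of_ne (by omega)]
    rw [h5] at h4
    rw [h3, h4]
  rw [ht.V_eq, h1, h2, add_assoc]

end Pool.Agent.H607.CF
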