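import Pool.Agent.H607.CF.Freq
import Pool.Graph.R_pool_sql_team_seeded_620a6dc7.Helper478_Shift.Fields

/-!
# Windows of close numbers
-/

set_option autoImplicit false

namespace Pool.Agent.H607.CF

open Filter Topology
open Pool.Agent.Helper478.Surds (EquiW)

/-- the positions of the digits in an interval -/
def pos (r : ℕ) (y α β : ℝ) : Set ℕ :=
  {i | α ≤ Int.fract (y * (r : ℝ) ^ i) ∧ Int.fract (y * (r : ℝ) ^ i) < β}

lemma equiW_cnt {r u v : ℕ} {y ε : ℝ} (h : EquiW y r u v ε) (α β : ℝ) (h1 : 0 ≤ α) (h2 : α < β)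
    (h3 : β ≤ 1) : |cnt (pos r y α β) u v - (β - α) * ((v : ℝ) - u)| ≤ ε * ((v : ℝ) - u) := by
  have := h α β h1 h2 h3
  have h4 : {i : ℕ | u < i ∧ i ≤ v ∧ α ≤ Int.fract (y * (r : ℝ) ^ i) ∧
      Int.fract (y * (r : ℝ) ^ i) < β} = pos r y α β ∩ Set.Ioc u v := by
    ext i
    simp only [Set.mem_setOf_eq, Set.mem_inter_iff, Set.mem_Ioc, pos]
    tauto
  rw [h4] at this
  exact this

lemma cnt_mono {S S' : Set ℕ} {u v : ℕ} (h : S ∩ Set.Ioc u v ⊆ S') : cnt S u v ≤ cnt S' u v := by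
  unfold cnt
  have : (S ∩ Set.Ioc u v).ncard ≤ (S' ∩ Set.Ioc u v).ncard :=
    Set.ncard_le_ncard (Set.subset_inter h Set.inter_subset_right) (fin_Ioc S' u v)
  exact_mod_cast this

lemma cnt_union_le (S S' : Set ℕ) (u v : ℕ) : cnt (S ∪ S') u v ≤ cnt S u v + cnt S' u v := by
  unfold cnt
  rw [Set.union_inter_distrib_right]
  exact_mod_cast Set.ncard_union_le _ _

lemma pert_upper {r u v : ℕ} {y y' ε η : ℝ} (huv : u ≤ v) (h : EquiW y' r u v ε) (hη0 : 0 < η)
    (hη1 : η ≤ 1 / 2) (hc : ∀ i, u < i → i ≤ v → |(y - y') * (r : ℝ) ^ i| ≤ η) (α β : ℝ)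
    (h1 : 0 ≤ α) (h2 : α < β) (h3 : β ≤ 1) :
    cnt (pos r y α β) u v ≤ (β - α + 4 * η + 3 * ε) * ((v : ℝ) - u) := by
  have huv' : (0 : ℝ) ≤ (v : ℝ) - u := by
    have : (u : ℝ) ≤ v := by exact_mod_cast huv
    linarith
  have hsub : pos r y α β ∩ Set.Ioc u v ⊆
      (pos r y' (max (α - η) 0) (min (β + η) 1) ∪ pos r y' 0 η) ∪ pos r y' (1 - η) 1 := by
    rintro i ⟨⟨hi1, hi2⟩, hi3, hi4⟩
    have hci := hc i hi3 hi4
    rw [sub_mul, abs_le] at hci
    set z := y * (r : ℝ) ^ i with hz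
    set z' := y' * (r : ℝ) ^ i with hz'
    have hzf : z = ⌊z⌋ + Int.fract z := (Int.floor_add_fract z).symm
    set g := Int.fract z + (z' - z) with hg
    have hz'g : z' = ⌊z⌋ + g := by rw [hg]; linarith
    rcases lt_or_ge g 0 with hg0 | hg0
    · right
      have hf : Int.fract z' = g + 1 := by
        rw [Int.fract_eq_iff]
        refine ⟨by linarith, by linarith, ⌊z⌋ - 1, ?_⟩
        push_cast
        linarith
      refine ⟨?_, ?_⟩
      · rw [hf]; linarith
      · rw [hf]; linarith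
    · rcases lt_or_ge g 1 with hg1 | hg1
      · left; left
        have hf : Int.fract z' = g := by
          rw [Int.fract_eq_iff]
          exact ⟨hg0, hg1, ⌊z⌋, by linarith⟩
        refine ⟨?_, ?_⟩
        · rw [hf, max_le_iff]
          constructor <;> linarith
        · rw [hf, lt_min_iff]
          constructor <;> linarith
      · left; right
        have hf : Int.fract z' = g - 1 := by
          rw [Int.fract_eq_iff]
          refine ⟨by linarith, by linarith, ⌊z⌋ + 1, ?_⟩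
          push_cast
          linarith
        refine ⟨?_, ?_⟩
        · rw [hf]; linarith
        · rw [hf]; linarith
  have h4 := (cnt_mono hsub).trans ((cnt_union_le _ _ u v).trans
    (add_le_add_left (cnt_union_le _ _ u v) _))
  have e1 := (abs_le.1 (equiW_cnt h (max (α - η) 0) (min (β + η) 1) (le_max_right _ _) (by
    rw [lt_min_iff, max_lt_iff, max_lt_iff]
    refine ⟨⟨?_, ?_⟩, ⟨?_, ?_⟩⟩ <;> linarith) (min_le_right _ _))).2
  have e2 := (abs_le.1 (equiW_cnt h 0 η le_rfl hη0 (by linarith))).2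
  have e3 := (abs_le.1 (equiW_cnt h (1 - η) 1 (by linarith) (by linarith) le_rfl)).2
  have e4 : min (β + η) 1 - max (α - η) 0 ≤ β - α + 2 * η := by
    have := min_le_left (β + η) 1
    have := le_max_left (α - η) 0
    linarith
  have e5 : (min (β + η) 1 - max (α - η) 0) * ((v : ℝ) - u) ≤ (β - α + 2 * η) * ((v : ℝ) - u) :=
    mul_le_mul_of_nonneg_right e4 huv'
  nlinarith

theorem pert {r u v : ℕ} {y y' ε η : ℝ} (huv : u ≤ v) (h : EquiW y' r u v ε) (hε : 0 ≤ ε)
    (hη0 : 0 < η)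
    (hη1 : η ≤ 1 / 2) (hc : ∀ i, u < i → i ≤ v → |(y - y') * (r : ℝ) ^ i| ≤ η) (α β : ℝ)
    (h1 : 0 ≤ α) (h2 : α < β) (h3 : β ≤ 1) :
    dev (pos r y α β) (β - α) u v ≤ (8 * η + 6 * ε) * ((v : ℝ) - u) := by
  have huv' : (0 : ℝ) ≤ (v : ℝ) - u := by
    have : (u : ℝ) ≤ v := by exact_mod_cast huv
    linarith
  have hup := pert_upper huv h hη0 hη1 hc α β h1 h2 h3
  have hlow1 : cnt (pos r y 0 α) u v ≤ (α + 4 * η + 3 * ε) * ((v : ℝ) - u) := by
    rcases h1.lt_or_eq with h4 | h4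
    · have := pert_upper huv h hη0 hη1 hc 0 α le_rfl h4 (by linarith)
      linarith
    · have h5 : pos r y 0 α ∩ Set.Ioc u v = ∅ := by
        ext i
        simp only [Set.mem_inter_iff, pos, Set.mem_setOf_eq, Set.mem_empty_iff_false, iff_false]
        rintro ⟨⟨h6, h7⟩, _⟩
        linarith
      unfold cnt
      rw [h5, Set.ncard_empty]
      push_cast
      positivity
  have hlow2 : cnt (pos r y β 1) u v ≤ (1 - β + 4 * η + 3 * ε) * ((v : ℝ) - u) := by
    rcases h3.lt_or_eq with h4 | h4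
    · exact pert_upper huv h hη0 hη1 hc β 1 (by linarith) h4 le_rfl
    · have h5 : pos r y β 1 ∩ Set.Ioc u v = ∅ := by
        ext i
        simp only [Set.mem_inter_iff, pos, Set.mem_setOf_eq, Set.mem_empty_iff_false, iff_false]
        rintro ⟨⟨h6, h7⟩, _⟩
        linarith
      unfold cnt
      rw [h5, Set.ncard_empty]
      push_cast
      have : (0 : ℝ) ≤ 1 - β + 4 * η + 3 * ε := by linarith
      positivity
  have htot : (v : ℝ) - u ≤ cnt (pos r y α β) u v + cnt (pos r y 0 α) u v + cnt (pos r y β 1) u v := by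
    have h5 : Set.univ ∩ Set.Ioc u v ⊆ (pos r y α β ∪ pos r y 0 α) ∪ pos r y β 1 := by
      rintro i _
      have h6 := Int.fract_nonneg (y * (r : ℝ) ^ i)
      have h7 := Int.fract_lt_one (y * (r : ℝ) ^ i)
      rcases lt_or_ge (Int.fract (y * (r : ℝ) ^ i)) α with h8 | h8
      · left; right; exact ⟨h6, h8⟩
      · rcases lt_or_ge (Int.fract (y * (r : ℝ) ^ i)) β with h9 | h9
        · left; left; exact ⟨h8, h9⟩
        · right; exact ⟨h9, h7⟩
    have h6 : cnt Set.univ u v = (v : ℝ) - u := by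
      unfold cnt
      rw [Set.univ_inter, ← Finset.coe_Ioc, Set.ncard_coe_finset, Nat.card_Ioc, Nat.cast_sub huv]
    rw [← h6]
    exact (cnt_mono h5).trans ((cnt_union_le _ _ u v).trans
      (add_le_add_left (cnt_union_le _ _ u v) _))
  unfold dev
  rw [abs_le]
  constructor <;> nlinarith [mul_nonneg hη0.le huv', mul_nonneg hε huv']

end Pool.Agent.H607.CF
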