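import Pool.Agent.H607.CF.Stage
import Pool.Agent.H607.CF.Pert

/-!
# The construction of the partial quotients
-/

set_option autoImplicit false

namespace Pool.Agent.H607.CF

open Finset Filter Topology
open Pool.Agent.Helper478.Surds (EquiW)

/-- the logarithmic size of a place -/
noncomputable def lamb (c : ℕ → ℤ) (m : ℕ) : ℝ := 2 * Real.log (Qd c (m + 1))

/-- the logarithmic size of the new partial quotient -/
noncomputable def hh (γ : ℝ) (c : ℕ → ℤ) (m : ℕ) : ℝ := (lamb c m) ^ (1 - γ / 2)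

/-- the new partial quotient `A` at the place `m + 1` is good of order `k` -/
def GP (γ : ℝ) (k : ℕ) (c : ℕ → ℤ) (m : ℕ) (A : ℤ) : Prop :=
  1 ≤ A ∧ (A : ℝ) ≤ Real.exp (2 * hh γ c m) ∧ ∀ r : ℕ, 2 ≤ r → r ≤ k → ∀ u v : ℕ,
      lamb c m + 4 * hh γ c m ≤ u * Real.log r → v * Real.log r ≤ lamb c m + (hh γ c m) ^ (1 + γ) →
      hh γ c m ≤ (v : ℝ) - u →
      EquiW (V (Function.update c (m + 1) A)) r u v (1 / ((k : ℝ) + 1))

/-- one step of the construction -/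
def Step (γ : ℝ) (i : ℕ) (s s' : (ℕ → ℤ) × ℕ) : Prop :=
  ∃ (k : ℕ) (A : ℤ), GP γ k s.1 s.2 A ∧ (∀ k', k' ≤ i → (∃ A', GP γ k' s.1 s.2 A') → k' ≤ k) ∧
    s'.1 = Function.update s.1 (s.2 + 1) A ∧ s.2 < s'.2 ∧
    lamb s.1 s.2 + (hh γ s.1 s.2) ^ (1 + γ) + hh γ s.1 s.2 ≤ lamb s'.1 s'.2 ∧
    ∀ m', s.2 < m' → m' < s'.2 →
      lamb s'.1 m' < lamb s.1 s.2 + (hh γ s.1 s.2) ^ (1 + γ) + hh γ s.1 s.2

lemma lamb_nonneg {c : ℕ → ℤ} (hc : Ok c) (m : ℕ) : 0 ≤ lamb c m := by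
  have h1 : (1 : ℝ) ≤ Qd c (m + 1) := by exact_mod_cast (Qd_pos hc m).1
  have := Real.log_nonneg h1
  unfold lamb
  linarith

lemma Qd_two_pow {c : ℕ → ℤ} (hc : Ok c) (j : ℕ) : (2 : ℤ) ^ j ≤ Qd c (2 * j + 1) := by
  induction j with
  | zero => simp [Qd]
  | succ j ih =>
    have := Qd_double hc (2 * j)
    rw [show 2 * (j + 1) + 1 = 2 * j + 3 by ring, pow_succ]
    linarith

lemma Qd_mono {c : ℕ → ℤ} (hc : Ok c) : Monotone (Qd c) := monotone_nat_of_le_succ (Qd_le_succ hc)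

/-- the places grow at least linearly in the logarithmic scale -/
lemma lamb_ge {c : ℕ → ℤ} (hc : Ok c) (m : ℕ) : ((m : ℝ) - 1) / 2 ≤ lamb c m := by
  have h1 : (2 : ℤ) ^ (m / 2) ≤ Qd c (m + 1) :=
    (Qd_two_pow hc (m / 2)).trans (Qd_mono hc (by omega))
  have h2 : ((2 : ℝ)) ^ (m / 2) ≤ Qd c (m + 1) := by exact_mod_cast h1
  have h3 : ((m / 2 : ℕ) : ℝ) * Real.log 2 ≤ Real.log (Qd c (m + 1)) := by
    rw [← Real.log_pow]
    exact Real.log_le_log (by positivity) h2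
  have h4 := Real.log_two_gt_d9
  have h5 : ((m : ℝ) - 1) / 2 ≤ ((m / 2 : ℕ) : ℝ) := by
    have h6 : m ≤ 2 * (m / 2) + 1 := by omega
    have h7 : (m : ℝ) ≤ 2 * ((m / 2 : ℕ) : ℝ) + 1 := by exact_mod_cast h6
    linarith
  have h6 : (0 : ℝ) ≤ ((m / 2 : ℕ) : ℝ) := Nat.cast_nonneg _
  unfold lamb
  nlinarith

lemma lamb_tendsto {c : ℕ → ℤ} (hc : Ok c) : Tendsto (lamb c) atTop atTop := by
  refine tendsto_atTop_mono (lamb_ge hc) ?_
  apply Tendsto.atTop_div_const (by norm_num)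
  exact tendsto_atTop_add_const_right _ _ tendsto_natCast_atTop_atTop

/-- growth over a range of places -/
lemma lamb_le {c : ℕ → ℤ} (hc : Ok c) (p n : ℕ) (hpn : p ≤ n) :
    lamb c n ≤ lamb c p + 2 * ∑ j ∈ Ioc p n, Real.log ((c j : ℝ) + 1) := by
  induction n, hpn using Nat.le_induction with
  | base => simp
  | succ n hn ih =>
    rw [sum_Ioc_succ_top (by omega)]
    have h1 := Qd_succ_le hc n
    have h2 : (1 : ℝ) ≤ Qd c (n + 1) := by exact_mod_cast (Qd_pos hc n).1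
    have h2' : (1 : ℝ) ≤ Qd c (n + 2) := by exact_mod_cast (Qd_pos hc (n + 1)).1
    have h3 : (Qd c (n + 2) : ℝ) ≤ ((c (n + 1) : ℝ) + 1) * Qd c (n + 1) := by exact_mod_cast h1
    have h4 : (1 : ℝ) ≤ c (n + 1) := by exact_mod_cast hc n
    have h5 : Real.log (Qd c (n + 2)) ≤ Real.log ((c (n + 1) : ℝ) + 1) + Real.log (Qd c (n + 1)) := by
      rw [← Real.log_mul (by linarith) (by linarith)]
      exact Real.log_le_log (by linarith) h3
    unfold lamb at ih ⊢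
    rw [show n + 1 + 1 = n + 2 by ring]
    linarith

lemma exists_step (γ : ℝ) (i : ℕ) (s : (ℕ → ℤ) × ℕ) (hs : Ok s.1) :
    ∃ s' : (ℕ → ℤ) × ℕ, Ok s'.1 ∧ Step γ i s s' := by
  classical
  have hl0 := lamb_nonneg hs s.2
  have hh0 : 0 ≤ hh γ s.1 s.2 := Real.rpow_nonneg hl0 _
  have h0 : ∃ A, GP γ 0 s.1 s.2 A := by
    refine ⟨1, le_rfl, ?_, fun r h1 h2 => by omega⟩
    push_cast
    exact Real.one_le_exp (by linarith)
  set k := Nat.findGreatest (fun k => ∃ A, GP γ k s.1 s.2 A) i with hk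
  have hkA : ∃ A, GP γ k s.1 s.2 A :=
    Nat.findGreatest_spec (P := fun k => ∃ A, GP γ k s.1 s.2 A) (Nat.zero_le i) h0
  obtain ⟨A, hA⟩ := hkA
  set c' := Function.update s.1 (s.2 + 1) A with hc'
  have hOk : Ok c' := hs.update _ A hA.1
  have hex : ∃ m', s.2 < m' ∧ lamb s.1 s.2 + (hh γ s.1 s.2) ^ (1 + γ) + hh γ s.1 s.2 ≤ lamb c' m' :=
    ((eventually_gt_atTop s.2).and ((lamb_tendsto hOk).eventually_ge_atTop _)).exists
  refine ⟨(c', Nat.find hex), hOk, k, A, hA, ?_, rfl, (Nat.find_spec hex).1, (Nat.find_spec hex).2, ?_⟩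
  · intro k' hk' hA'
    exact Nat.le_findGreatest hk' hA'
  · intro m' hm1 hm2
    have := Nat.find_min hex hm2
    push Not at this
    exact this hm1

/-- the sequence of the states -/
lemma exists_states (γ : ℝ) (a : ℕ → ℤ) (ha : Ok a) (m₀ : ℕ) :
    ∃ st : ℕ → (ℕ → ℤ) × ℕ, st 0 = (a, m₀) ∧ (∀ i, Ok (st i).1) ∧ ∀ i, Step γ i (st i) (st (i + 1)) := by
  classical
  choose f hf1 hf2 using fun (i : ℕ) (s : {s : (ℕ → ℤ) × ℕ // Ok s.1}) => exists_step γ i s.1 s.2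
  let g : ℕ → {s : (ℕ → ℤ) × ℕ // Ok s.1} := fun n =>
    Nat.rec ⟨(a, m₀), ha⟩ (fun i s => ⟨f i s, hf1 i s⟩) n
  refine ⟨fun i => (g i).1, rfl, fun i => (g i).2, fun i => ?_⟩
  exact hf2 i (g i)

end Pool.Agent.H607.CF
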