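import Pool.Agent.H607.CF.Basic

/-!
# The partial quotients of `e` and of `√2`
-/

set_option autoImplicit false

namespace Pool.Agent.H607.CF

open Finset Filter Topology

/-- the partial quotients of `e` -/
def ce (n : ℕ) : ℤ := if n = 0 then 2 else if n % 3 = 2 then 2 * (((n / 3 : ℕ) : ℤ) + 1) else 1

lemma ce_ok : Ok ce := by
  intro n
  unfold ce
  rw [if_neg (by omega)]
  split_ifs <;> omega

/-- Hermite's integrals -/
noncomputable def J (p q : ℕ) : ℝ := ∫ x in (0 : ℝ)..1, x ^ p * (x - 1) ^ q * Real.exp x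

lemma J_int (p q : ℕ) : IntervalIntegrable (fun x : ℝ => x ^ p * (x - 1) ^ q * Real.exp x)
    MeasureTheory.volume 0 1 := by
  apply Continuous.intervalIntegrable
  fun_prop

lemma J_bound (p q : ℕ) : |J p q| ≤ Real.exp 1 := by
  unfold J
  have h := intervalIntegral.norm_integral_le_of_norm_le_const (a := 0) (b := 1)
    (f := fun x : ℝ => x ^ p * (x - 1) ^ q * Real.exp x) (C := Real.exp 1) ?_
  · simpa using h
  · intro x hx
    rw [Set.uIoc_of_le zero_le_one, Set.mem_Ioc] at hx
    rw [Real.norm_eq_abs, abs_mul, abs_mul, abs_pow, abs_pow, Real.abs_exp]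
    have h1 : |x| ^ p ≤ 1 := pow_le_one₀ (abs_nonneg _) (by rw [abs_le]; constructor <;> linarith)
    have h2 : |x - 1| ^ q ≤ 1 := pow_le_one₀ (abs_nonneg _) (by rw [abs_le]; constructor <;> linarith)
    have h3 : Real.exp x ≤ Real.exp 1 := Real.exp_le_exp.2 hx.2
    have h4 : |x| ^ p * |x - 1| ^ q ≤ 1 := mul_le_one₀ h1 (by positivity) h2
    calc |x| ^ p * |x - 1| ^ q * Real.exp x ≤ 1 * Real.exp 1 := by gcongr
      _ = _ := one_mul _

/-- shift of a factor -/
lemma J_shift (p q : ℕ) : J p (q + 1) = J (p + 1) q - J p q := by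
  unfold J
  rw [← intervalIntegral.integral_sub (J_int _ _) (J_int _ _)]
  congr 1
  ext x
  ring

/-- integration by parts -/
lemma J_parts (p q : ℕ) : ((p : ℝ) + 1) * J p (q + 1) + ((q : ℝ) + 1) * J (p + 1) q + J (p + 1) (q + 1) = 0 := by
  have hd : ∀ x ∈ Set.uIcc (0 : ℝ) 1, HasDerivAt (fun x : ℝ => x ^ (p + 1) * (x - 1) ^ (q + 1) * Real.exp x)
      (((p : ℝ) + 1) * (x ^ p * (x - 1) ^ (q + 1) * Real.exp x) +
        ((q : ℝ) + 1) * (x ^ (p + 1) * (x - 1) ^ q * Real.exp x) +
        x ^ (p + 1) * (x - 1) ^ (q + 1) * Real.exp x) x := by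
    intro x _
    have h1 : HasDerivAt (fun x : ℝ => x ^ (p + 1)) (((p + 1 : ℕ) : ℝ) * x ^ p) x := by
      simpa using hasDerivAt_pow (p + 1) x
    have h2 : HasDerivAt (fun x : ℝ => (x - 1) ^ (q + 1)) (((q + 1 : ℕ) : ℝ) * (x - 1) ^ q) x := by
      simpa using ((hasDerivAt_id x).sub_const 1).fun_pow (q + 1)
    have h3 := (h1.fun_mul h2).fun_mul (Real.hasDerivAt_exp x)
    refine h3.congr_deriv ?_
    push_cast
    ring
  have h := intervalIntegral.integral_eq_sub_of_hasDerivAt hd ?_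
  · rw [intervalIntegral.integral_add, intervalIntegral.integral_add,
      intervalIntegral.integral_const_mul, intervalIntegral.integral_const_mul] at h
    · unfold J
      rw [h]
      simp
    · exact (J_int _ _).const_mul _
    · exact (J_int _ _).const_mul _
    · exact ((J_int _ _).const_mul _).add ((J_int _ _).const_mul _)
    · exact J_int _ _
  · exact (((J_int _ _).const_mul _).add ((J_int _ _).const_mul _)).add (J_int _ _)

/-- the errors -/
noncomputable def De (n : ℕ) : ℝ := Pd ce n - Qd ce n * Real.exp 1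

lemma De_rec (n : ℕ) : De (n + 2) = ce (n + 1) * De (n + 1) + De n := by
  unfold De
  rw [Pd, Qd]
  push_cast
  ring

lemma J_zero : J 0 0 = Real.exp 1 - 1 := by
  unfold J
  simp

lemma J_one : J 1 0 = 1 := by
  have h := J_parts 0 0
  have h1 := J_shift 0 0
  have h2 := J_shift 1 0
  have h3 : J 1 0 = 1 := by
    have hd : ∀ x ∈ Set.uIcc (0 : ℝ) 1, HasDerivAt (fun x : ℝ => (x - 1) * Real.exp x)
        (x ^ 1 * (x - 1) ^ 0 * Real.exp x) x := by
      intro x _
      have h3 := ((hasDerivAt_id x).sub_const 1).mul (Real.hasDerivAt_exp x)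
      refine h3.congr_deriv ?_
      simp
      ring
    have h4 := intervalIntegral.integral_eq_sub_of_hasDerivAt hd (J_int 1 0)
    unfold J
    rw [h4]
    simp
  exact h3

/-- Hermite's formulas for the errors -/
lemma De_eq (n : ℕ) : De (3 * n) = J (n + 1) n / n.factorial ∧ De (3 * n + 1) = J n (n + 1) / n.factorial := by
  induction n with
  | zero =>
    constructor
    · unfold De
      rw [show 3 * 0 = 0 from rfl, Pd, Qd, J_one]
      simp
    · unfold De
      rw [show 3 * 0 + 1 = 1 from rfl, Pd, Qd, J_shift, J_one, J_zero]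
      simp [ce]
      ring
  | succ n ih =>
    obtain ⟨h1, h2⟩ := ih
    have hf : (n.factorial : ℝ) ≠ 0 := by exact_mod_cast n.factorial_ne_zero
    have hf1 : ((n + 1).factorial : ℝ) = (n + 1) * n.factorial := by
      rw [Nat.factorial_succ]
      push_cast
      ring
    have hn1 : (n : ℝ) + 1 ≠ 0 := by positivity
    have c1 : ce (3 * n + 1) = 1 := by
      unfold ce
      rw [if_neg (by omega), if_neg (by omega)]
    have c2 : ce (3 * n + 2) = 2 * ((n : ℤ) + 1) := by
      unfold ce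
      rw [if_neg (by omega), if_pos (by omega), show (3 * n + 2) / 3 = n by omega]
    have c3 : ce (3 * n + 3) = 1 := by
      unfold ce
      rw [if_neg (by omega), if_neg (by omega)]
    have r1 := De_rec (3 * n)
    have r2 := De_rec (3 * n + 1)
    have r3 := De_rec (3 * n + 2)
    rw [c1] at r1
    rw [show 3 * n + 1 + 1 = 3 * n + 2 by ring, c2] at r2
    rw [show 3 * n + 2 + 1 = 3 * n + 3 by ring, c3] at r3
    rw [h1, h2] at r1
    have p1 := J_parts n n
    have p2 := J_parts n (n + 1)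
    have s1 := J_shift n (n + 1)
    have s2 := J_shift (n + 1) (n + 1)
    push_cast at r1 r2 r3 p1 p2
    have e2 : De (3 * n + 2) = - J (n + 1) (n + 1) / (n + 1).factorial := by
      rw [r1, hf1, eq_div_iff (mul_ne_zero hn1 hf)]
      field_simp
      linarith
    have e3 : De (3 * n + 3) = J (n + 2) (n + 1) / (n + 1).factorial := by
      rw [show 3 * n + 3 = 3 * n + 1 + 2 by ring, r2, e2, h2, hf1, eq_div_iff (mul_ne_zero hn1 hf)]
      field_simp
      have q1 : J n (n + 1 + 1) = J (n + 1) (n + 1) - J n (n + 1) := s1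
      have q2 : J (n + 1) (n + 1 + 1) = J (n + 1 + 1) (n + 1) - J (n + 1) (n + 1) := s2
      rw [q1, q2] at p2
      rw [show n + 2 = n + 1 + 1 by ring]
      linarith
    have e4 : De (3 * n + 4) = J (n + 1) (n + 2) / (n + 1).factorial := by
      rw [show 3 * n + 4 = 3 * n + 2 + 2 by ring, r3, e3, e2]
      have q2 : J (n + 1) (n + 1 + 1) = J (n + 1 + 1) (n + 1) - J (n + 1) (n + 1) := s2
      rw [show n + 2 = n + 1 + 1 by ring, q2]
      ring
    exact ⟨by rw [show 3 * (n + 1) = 3 * n + 3 by ring]; exact e3,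
      by rw [show 3 * (n + 1) + 1 = 3 * n + 4 by ring]; exact e4⟩

/-- Euler: the continued fraction of `e` -/
theorem isVal_e : ∃ t, IsVal ce t ∧ t 0 = Real.exp 1 := by
  obtain ⟨t, ht⟩ := exists_val ce ce_ok
  refine ⟨t, ht, ?_⟩
  by_contra hne
  have hpos : 0 < |t 0 - Real.exp 1| := abs_pos.2 (sub_ne_zero.2 hne)
  -- the product with the denominators is bounded
  have hb : ∀ n : ℕ, |t 0 - Real.exp 1| * (3 * n) ≤ 1 + Real.exp 1 + 2 * |t 0 - Real.exp 1| := by
    intro n
    rcases Nat.eq_zero_or_pos n with h0 | h0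
    · rw [h0]
      push_cast
      have := Real.exp_pos 1
      have := abs_nonneg (t 0 - Real.exp 1)
      linarith
    have hQ1 : (1 : ℝ) ≤ Qd ce (3 * n) := by
      have := (Qd_pos ce_ok (3 * n - 1)).1
      rw [show 3 * n - 1 + 1 = 3 * n by omega] at this
      exact_mod_cast this
    have hQ2 : (3 * n : ℝ) ≤ Qd ce (3 * n) + 1 + 1 := by
      have := Qd_ge ce_ok (3 * n - 2)
      rw [show 3 * n - 2 + 2 = 3 * n by omega] at this
      have h2 : (3 * n : ℤ) ≤ Qd ce (3 * n) + 2 := by omega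
      have : (3 * n : ℝ) ≤ Qd ce (3 * n) + 2 := by exact_mod_cast h2
      linarith
    have h1 := ht.approx (3 * n - 1)
    rw [show 3 * n - 1 + 1 = 3 * n by omega] at h1
    have h2 := (ht (3 * n - 1)).2
    rw [show 3 * n - 1 + 1 = 3 * n by omega] at h2
    have h3 : (0 : ℝ) ≤ Qd ce (3 * n - 1) := by
      have h := (Qd_pos ce_ok (3 * n - 1)).2
      exact_mod_cast h
    have h4 : |(Qd ce (3 * n) : ℝ) * t 0 - Pd ce (3 * n)| ≤ 1 := by
      have hq0 : (Qd ce (3 * n) : ℝ) ≠ 0 := by linarith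
      have hd : 1 ≤ t (3 * n) + Qd ce (3 * n - 1) / Qd ce (3 * n) := by
        have : (0 : ℝ) ≤ Qd ce (3 * n - 1) / Qd ce (3 * n) := by positivity
        linarith
      have e1 : (Qd ce (3 * n) : ℝ) * t 0 - Pd ce (3 * n) =
          - ((-1) ^ (3 * n) / ((Qd ce (3 * n) : ℝ) * (t (3 * n) + Qd ce (3 * n - 1) / Qd ce (3 * n)))) := by
        rw [h1]
        have hd0 : t (3 * n) + Qd ce (3 * n - 1) / Qd ce (3 * n) ≠ 0 := by linarith
        generalize t (3 * n) + Qd ce (3 * n - 1) / Qd ce (3 * n) = D at hd0 ⊢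
        field_simp
        ring
      rw [e1, abs_neg, abs_div, abs_pow, abs_neg, abs_one, one_pow, abs_of_pos (by positivity)]
      rw [div_le_one (by positivity)]
      nlinarith
    have h5 : |De (3 * n)| ≤ Real.exp 1 := by
      rw [(De_eq n).1, abs_div, Nat.abs_cast]
      have h6 : (1 : ℝ) ≤ n.factorial := by exact_mod_cast Nat.succ_le_of_lt n.factorial_pos
      rw [div_le_iff₀ (by positivity)]
      have := J_bound (n + 1) n
      have := Real.exp_pos 1
      nlinarith
    have h6 : |(t 0 - Real.exp 1) * Qd ce (3 * n)| ≤ 1 + Real.exp 1 := by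
      have e1 : (t 0 - Real.exp 1) * Qd ce (3 * n) =
          ((Qd ce (3 * n) : ℝ) * t 0 - Pd ce (3 * n)) + De (3 * n) := by
        unfold De
        ring
      rw [e1]
      exact (abs_add_le _ _).trans (add_le_add h4 h5)
    rw [abs_mul, abs_of_pos (by linarith : (0 : ℝ) < Qd ce (3 * n))] at h6
    have h7 : |t 0 - Real.exp 1| * (3 * n) ≤ |t 0 - Real.exp 1| * (Qd ce (3 * n) + 1 + 1) := by gcongr
    have h8 : |t 0 - Real.exp 1| * (Qd ce (3 * n) + 1 + 1) =
      |t 0 - Real.exp 1| * Qd ce (3 * n) + |t 0 - Real.exp 1| + |t 0 - Real.exp 1| := by ring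
    linarith
  obtain ⟨N, hN⟩ := exists_nat_gt ((1 + Real.exp 1 + 2 * |t 0 - Real.exp 1|) / |t 0 - Real.exp 1|)
  have h1 := hb N
  rw [div_lt_iff₀ hpos] at hN
  have h2 : (0 : ℝ) ≤ N := Nat.cast_nonneg _
  nlinarith

lemma pq_e (n : ℕ) : pq (Real.exp 1) n = ce n := by
  obtain ⟨t, ht, h0⟩ := isVal_e
  rw [← h0]
  exact ht.pq_eq n

lemma ce_le (n : ℕ) (hn : 1 ≤ n) : ce n ≤ 4 * n := by
  unfold ce
  rw [if_neg (by omega)]
  split_ifs <;> omega

lemma log_small {a : ℕ → ℤ} (h1 : ∀ n, 1 ≤ n → 1 ≤ a n) (h2 : ∀ n : ℕ, 1 ≤ n → a n ≤ 4 * n) :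
    Tendsto (fun n : ℕ => Real.log (a n) / n) atTop (𝓝 0) := by
  have h3 : Tendsto (fun n : ℕ => Real.log 4 / n + Real.log n / n) atTop (𝓝 (0 + 0)) := by
    refine (tendsto_const_div_atTop_nhds_zero_nat _).add ?_
    have := (Real.isLittleO_log_id_atTop.tendsto_div_nhds_zero).comp tendsto_natCast_atTop_atTop
    exact this
  rw [add_zero] at h3
  refine squeeze_zero' ?_ ?_ h3
  · filter_upwards [eventually_ge_atTop 1] with n hn
    have : (1 : ℝ) ≤ a n := by exact_mod_cast h1 n hn
    exact div_nonneg (Real.log_nonneg this) (Nat.cast_nonneg _)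
  · filter_upwards [eventually_ge_atTop 1] with n hn
    have h4 : (1 : ℝ) ≤ a n := by exact_mod_cast h1 n hn
    have h5 : (a n : ℝ) ≤ 4 * n := by exact_mod_cast h2 n hn
    have h6 : (1 : ℝ) ≤ n := by exact_mod_cast hn
    rw [← add_div]
    apply div_le_div_of_nonneg_right _ (Nat.cast_nonneg _)
    rw [← Real.log_mul (by norm_num) (by linarith)]
    exact Real.log_le_log (by linarith) h5

theorem log_pq_e : Tendsto (fun n : ℕ => Real.log (pq (Real.exp 1) n) / n) atTop (𝓝 0) := by
  apply log_small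
  · intro n hn
    rw [pq_e]
    obtain ⟨p, rfl⟩ : ∃ p, n = p + 1 := ⟨n - 1, by omega⟩
    exact ce_ok p
  · intro n hn
    rw [pq_e]
    exact ce_le n hn

lemma IsVal.not_rat (q : ℕ) : 0 < q → ∀ (c : ℕ → ℤ) (t : ℕ → ℝ), IsVal c t → ∀ p : ℤ,
    t 0 = p / q → False := by
  induction q using Nat.strong_induction_on with
  | _ q ih =>
    intro hq c t h p hp
    have hq' : (0 : ℝ) < q := by exact_mod_cast hq
    obtain ⟨h1, h2⟩ := h 0
    have ht1 : (0 : ℝ) < t (0 + 1) := by linarith
    have h3 : ((p - c 0 * q : ℤ) : ℝ) = q / t (0 + 1) := by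
      push_cast
      have h4 : (p : ℝ) = t 0 * q := by rw [hp]; field_simp
      rw [h4, h1]
      field_simp
      ring
    have h4 : (0 : ℝ) < ((p - c 0 * q : ℤ) : ℝ) := by rw [h3]; positivity
    have h5 : ((p - c 0 * q : ℤ) : ℝ) < q := by
      rw [h3, div_lt_iff₀ ht1]
      nlinarith
    have h4' : 0 < p - c 0 * q := by exact_mod_cast h4
    have h5' : p - c 0 * q < q := by exact_mod_cast h5
    obtain ⟨s, hs⟩ := Int.eq_ofNat_of_zero_le h4'.le
    rw [hs] at h4' h5' h3
    refine ih s (by omega) (by omega) _ _ (h.tail 1) (q : ℤ) ?_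
    have h6 : (s : ℝ) = q / t (0 + 1) := by exact_mod_cast h3
    have h7 : (0 : ℝ) < s := by rw [h6]; positivity
    rw [eq_div_iff h7.ne', h6]
    push_cast
    have : t (0 + 1) ≠ 0 := ht1.ne'
    simp only [add_zero, zero_add] at this ⊢
    field_simp

theorem IsVal.irrational {c : ℕ → ℤ} {t : ℕ → ℝ} (h : IsVal c t) : Irrational (t 0) := by
  rintro ⟨r, hr⟩
  refine IsVal.not_rat r.den r.pos c t h r.num ?_
  rw [← hr]
  exact Rat.cast_def r

theorem irrational_e : Irrational (Real.exp 1) := by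
  obtain ⟨t, ht, h0⟩ := isVal_e
  rw [← h0]
  exact ht.irrational

/-- the partial quotients of `√2` -/
lemma pq_sqrt (n : ℕ) : pq (Real.sqrt 2) n = if n = 0 then 1 else 2 := by
  have h1 : Real.sqrt 2 * Real.sqrt 2 = 2 := Real.mul_self_sqrt (by norm_num)
  have h2 : 1 < Real.sqrt 2 := by
    rw [show (1 : ℝ) = Real.sqrt 1 by simp]
    exact Real.sqrt_lt_sqrt (by norm_num) (by norm_num)
  have h3 : IsVal (fun n => if n = 0 then 1 else 2) (fun n => if n = 0 then Real.sqrt 2 else Real.sqrt 2 + 1) := by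
    intro n
    have hne : Real.sqrt 2 + 1 ≠ 0 := by positivity
    rcases Nat.eq_zero_or_pos n with h | h
    · subst h
      simp only [if_true, if_neg (Nat.succ_ne_zero 0)]
      refine ⟨?_, by linarith⟩
      push_cast
      field_simp
      nlinarith
    · simp only [if_neg (Nat.succ_ne_zero n), if_neg (by omega : n ≠ 0)]
      refine ⟨?_, by linarith⟩
      push_cast
      field_simp
      nlinarith
  have h4 := h3.pq_eq n
  simpa using h4

theorem log_pq_sqrt : Tendsto (fun n : ℕ => Real.log (pq (Real.sqrt 2) n) / n) atTop (𝓝 0) := by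
  apply log_small
  · intro n hn
    rw [pq_sqrt, if_neg (by omega)]
    norm_num
  · intro n hn
    rw [pq_sqrt, if_neg (by omega)]
    omega

end Pool.Agent.H607.CF
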