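import Pool.Agent.H607.CF.Main

/-!
# Few partial quotients changed: the main theorem
-/

set_option autoImplicit false

namespace Pool.Agent.H607.CF

open Finset Filter Topology
open Pool.Agent.Helper478.Surds (EquiW)

lemma tendsto_log_succ {a : ℕ → ℤ} (ha : ∀ n, 1 ≤ n → 1 ≤ a n)
    (h : Tendsto (fun n : ℕ => Real.log (a n) / n) atTop (𝓝 0)) :
    Tendsto (fun n : ℕ => Real.log ((a n : ℝ) + 1) / n) atTop (𝓝 0) := by
  have h1 : Tendsto (fun n : ℕ => Real.log 2 / n) atTop (𝓝 0) := tendsto_const_div_atTop_nhds_zero_nat _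
  have h2 := h1.add h
  rw [add_zero] at h2
  refine squeeze_zero' ?_ ?_ h2
  · filter_upwards [eventually_ge_atTop 1] with n hn
    have : (1 : ℝ) ≤ a n := by exact_mod_cast ha n hn
    apply div_nonneg (Real.log_nonneg (by linarith)) (Nat.cast_nonneg _)
  · filter_upwards [eventually_ge_atTop 1] with n hn
    have h3 : (1 : ℝ) ≤ a n := by exact_mod_cast ha n hn
    rw [← add_div]
    apply div_le_div_of_nonneg_right _ (Nat.cast_nonneg _)
    rw [← Real.log_mul (by norm_num) (by linarith)]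
    exact Real.log_le_log (by linarith) (by linarith)

theorem main : ∃ C : ℝ, 0 < C ∧ ∀ x : ℝ, Irrational x →
    Tendsto (fun n : ℕ => Real.log (pq x n) / n) atTop (𝓝 0) → ∀ M : ℕ,
    ∃ y : ℝ, (∀ n < M, pq y n = pq x n) ∧
      (∀ N : ℕ, 3 ≤ N → (({n : ℕ | n < N ∧ pq y n ≠ pq x n}).ncard : ℝ) ≤
        C * Real.log (Real.log N)) ∧
      ∀ r : ℕ, 2 ≤ r → ∀ α β : ℝ, 0 ≤ α → α < β → β ≤ 1 →
        Tendsto (fun N : ℕ => cnt (pos r y α β) 0 N / N) atTop (𝓝 (β - α)) := by
  obtain ⟨γ, hγ0, hγ1, hst⟩ := stage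
  obtain ⟨L₀, hL₀, hL⟩ := threshold hγ0 hγ1
  have hlg : 0 < Real.log (1 + γ / 4) := Real.log_pos (by linarith)
  refine ⟨1 + 2 / Real.log (1 + γ / 4), by positivity, fun x hx hxl M => ?_⟩
  set a := pq x with ha_def
  have hok : Ok a := (isVal_of_irrational hx).ok
  have ha : ∀ n, 1 ≤ n → 1 ≤ a n := by
    intro n hn
    obtain ⟨p, rfl⟩ : ∃ p, n = p + 1 := ⟨n - 1, by omega⟩
    exact hok p
  have hlim := tendsto_log_succ ha hxl
  obtain ⟨m₁, hm₁⟩ := eventually_atTop.1 (hlim.eventually_lt_const (show (0 : ℝ) < 1 / 2 by norm_num))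
  set m₀ := max (max M 25) (max (m₁ + 1) (2 * ⌈L₀⌉₊ + 2)) with hm₀
  have hM : M ≤ m₀ := (le_max_left _ _).trans (le_max_left _ _)
  have h25 : 25 ≤ m₀ := (le_max_right _ _).trans (le_max_left _ _)
  have hm1 : m₁ + 1 ≤ m₀ := (le_max_left _ _).trans (le_max_right _ _)
  have hmL : 2 * ⌈L₀⌉₊ + 2 ≤ m₀ := (le_max_right _ _).trans (le_max_right _ _)
  obtain ⟨D⟩ := exists_data γ a hok m₀
  have h0 : L₀ ≤ D.lam 0 := by
    have h1 := lamb_ge (D.ok 0) (D.m 0)
    rw [D.m0] at h1
    have h2 : L₀ ≤ (⌈L₀⌉₊ : ℝ) := Nat.le_ceil _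
    have h3 : 2 * (⌈L₀⌉₊ : ℝ) + 2 ≤ m₀ := by exact_mod_cast hmL
    change _ ≤ lamb (D.c 0) (D.m 0)
    rw [D.m0]
    linarith
  have hbd : ∀ n, m₀ ≤ n → Real.log ((a n : ℝ) + 1) ≤ n / 2 := by
    intro n hn
    have h1 := hm₁ n (by omega)
    have h2 : (0 : ℝ) < n := by exact_mod_cast (by omega : 0 < n)
    rw [div_lt_iff₀ h2] at h1
    linarith
  have S : Scales γ D.lam := D.scales L₀ hγ0 hγ1 hL₀ hL h0 ha hlim
  have hlamL : ∀ i, L₀ ≤ D.lam i := fun i => h0.trans (D.lam_zero_ge i)
  -- the limit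
  set cl := lim D.c with hcl
  have hokl : Ok cl := fun n => D.ok _ n
  obtain ⟨t, ht⟩ := exists_val cl hokl
  set y := V cl with hy
  have hyt : y = t 0 := ht.V_eq
  have hpq : ∀ n, pq y n = cl n := by
    intro n
    rw [hyt]
    exact ht.pq_eq n
  have hcleq : ∀ i j, j ≤ D.m i → cl j = D.c i j := fun i j hj => lim_eq D.upd D.mono i j hj
  have hsame : ∀ n, (∀ i, n ≠ D.m i + 1) → cl n = a n := by
    intro n hn
    exact orig D.upd a D.c0 n (n + 1) fun i _ => hn i
  have hm0le : ∀ i, m₀ ≤ D.m i := by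
    intro i
    have := D.mono.monotone (Nat.zero_le i)
    rwa [D.m0] at this
  refine ⟨y, ?_, ?_, ?_⟩
  · intro n hn
    rw [hpq, hsame]
    intro i
    have := hm0le i
    omega
  · intro N hN
    -- the changed places
    have hsub : {n : ℕ | n < N ∧ pq y n ≠ a n} ⊆ {n : ℕ | ∃ i, n = D.m i + 1 ∧ n < N} := by
      rintro n ⟨h1, h2⟩
      rw [hpq] at h2
      by_contra h3
      apply h2
      apply hsame
      intro i hi
      exact h3 ⟨i, hi, h1⟩
    have hLL : 0 ≤ Real.log (Real.log N) := by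
      apply Real.log_nonneg
      rw [Real.le_log_iff_exp_le (by positivity)]
      have h1 := Real.exp_one_lt_d9
      have h2 : (3 : ℝ) ≤ N := by exact_mod_cast hN
      linarith
    by_cases hsmall : N ≤ m₀ + 1
    · have hemp : {n : ℕ | n < N ∧ pq y n ≠ a n} = ∅ := by
        apply Set.eq_empty_of_subset_empty
        refine hsub.trans ?_
        rintro n ⟨i, hi, hn⟩
        have := hm0le i
        omega
      rw [hemp, Set.ncard_empty]
      push_cast
      positivity
    push Not at hsmall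
    -- bound on the index
    have hNpos : (27 : ℝ) ≤ N := by exact_mod_cast (by omega : 27 ≤ N)
    have hlogN : 3 ≤ Real.log N := by
      rw [Real.le_log_iff_exp_le (by linarith)]
      have h1 := Real.exp_one_lt_d9
      have h2 : Real.exp 3 = Real.exp 1 ^ 3 := by rw [← Real.exp_nat_mul]; norm_num
      rw [h2]
      have h3 : Real.exp 1 ^ 3 ≤ (2.72 : ℝ) ^ 3 := by
        gcongr
        linarith
      have h4 : (2.72 : ℝ) ^ 3 ≤ 27 := by norm_num
      linarith
    have hLL1 : 1 ≤ Real.log (Real.log N) := by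
      rw [Real.le_log_iff_exp_le (by linarith)]
      have h1 := Real.exp_one_lt_d9
      linarith
    have hidx : ∀ i, D.m i + 1 < N → (i : ℝ) * Real.log (1 + γ / 4) ≤ 2 * Real.log (Real.log N) := by
      intro i hi
      rcases Nat.eq_zero_or_pos i with h | h
      · rw [h]
        push_cast
        linarith
      obtain ⟨p, rfl⟩ : ∃ p, i = p + 1 := ⟨i - 1, by omega⟩
      have h1 := D.lam_le L₀ hγ0 hL₀ hL h0 hbd p
      have h2 := D.log_lam L₀ hγ0 hL₀ hL h0 (p + 1)
      have h3 : (D.m (p + 1) : ℝ) ≤ N := by exact_mod_cast (by omega : D.m (p + 1) ≤ N)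
      have h4 : D.lam (p + 1) ≤ (N : ℝ) ^ 3 := by
        calc D.lam (p + 1) ≤ 2 * (D.m (p + 1) : ℝ) ^ 2 := h1
          _ ≤ 2 * (N : ℝ) ^ 2 := by gcongr
          _ ≤ (N : ℝ) * (N : ℝ) ^ 2 := by
              gcongr
              linarith
          _ = (N : ℝ) ^ 3 := by ring
      have h5 : Real.log (D.lam (p + 1)) ≤ 3 * Real.log N := by
        calc Real.log (D.lam (p + 1)) ≤ Real.log ((N : ℝ) ^ 3) :=
              Real.log_le_log (by have := hlamL (p + 1); linarith) h4
          _ = 3 * Real.log N := by rw [Real.log_pow]; norm_num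
      have h6 : (1 + γ / 4) ^ (p + 1) ≤ 3 * Real.log N := h2.trans h5
      have h7 : Real.log ((1 + γ / 4) ^ (p + 1)) ≤ Real.log (3 * Real.log N) :=
        Real.log_le_log (by positivity) h6
      rw [Real.log_pow, Real.log_mul (by norm_num) (by linarith)] at h7
      have h8 : Real.log 3 ≤ Real.log (Real.log N) := Real.log_le_log (by norm_num) hlogN
      linarith
    -- the number of the indices
    set I := ⌊2 * Real.log (Real.log N) / Real.log (1 + γ / 4)⌋₊ with hI
    have hsub2 : {n : ℕ | ∃ i, n = D.m i + 1 ∧ n < N} ⊆ ((range (I + 1)).image fun i => D.m i + 1 : Finset ℕ) := by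
      rintro n ⟨i, hi, hn⟩
      rw [coe_image, Set.mem_image]
      refine ⟨i, ?_, hi.symm⟩
      rw [mem_coe, mem_range, Nat.lt_succ_iff]
      apply Nat.le_floor
      rw [le_div_iff₀ hlg]
      exact hidx i (by omega)
    have hcard : ({n : ℕ | n < N ∧ pq y n ≠ a n}).ncard ≤ I + 1 := by
      calc ({n : ℕ | n < N ∧ pq y n ≠ a n}).ncard ≤
          (((range (I + 1)).image fun i => D.m i + 1 : Finset ℕ) : Set ℕ).ncard :=
            Set.ncard_le_ncard (hsub.trans hsub2) (Finset.finite_toSet _)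
        _ = ((range (I + 1)).image fun i => D.m i + 1).card := Set.ncard_coe_finset _
        _ ≤ (range (I + 1)).card := card_image_le
        _ = I + 1 := card_range _
    have hIle : (I : ℝ) ≤ 2 * Real.log (Real.log N) / Real.log (1 + γ / 4) :=
      Nat.floor_le (by positivity)
    calc (({n : ℕ | n < N ∧ pq y n ≠ a n}).ncard : ℝ) ≤ ((I + 1 : ℕ) : ℝ) := by exact_mod_cast hcard
      _ = I + 1 := by push_cast; ring
      _ ≤ 2 * Real.log (Real.log N) / Real.log (1 + γ / 4) + Real.log (Real.log N) := by linarith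
      _ = (1 + 2 / Real.log (1 + γ / 4)) * Real.log (Real.log N) := by ring
  · intro r hr α β h1 h2 h3
    apply S.freq hγ0 hγ1 r hr (pos r y α β) (β - α) (by linarith) (by linarith)
    intro ε hε
    obtain ⟨K₀, hK₀⟩ := exists_nat_gt (12 / ε)
    set K := max K₀ r with hK
    obtain ⟨Λ, hΛ⟩ := hst K
    have hexp : Tendsto (fun i => Real.exp (-((D.lam i) ^ (1 - γ / 2)))) atTop (𝓝 0) := by
      apply Real.tendsto_exp_neg_atTop_nhds_zero.comp
      exact (tendsto_rpow_atTop (by linarith)).comp S.tends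
    have hmin : (0 : ℝ) < min (1 / 2) (ε / 16) := by positivity
    filter_upwards [S.tends.eventually_ge_atTop Λ, eventually_ge_atTop K,
      hexp.eventually_le_const hmin] with i hi1 hi2 hi3
    have hi3a := hi3.trans (min_le_left _ _)
    have hi3b := hi3.trans (min_le_right _ _)
    -- the new partial quotient is good of order at least `K`
    have hex : ∃ A', GP γ K (D.c i) (D.m i) A' := by
      obtain ⟨A', g1, g2, g3⟩ := hΛ (D.c i) (D.m i) (D.lam i) (hh γ (D.c i) (D.m i)) (D.ok i) rfl rfl hi1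
      exact ⟨A', g1, g2, g3⟩
    have hkK : K ≤ D.k i := D.mx i K hi2 hex
    have hgp := (D.gp i).2.2 r hr ((le_max_right _ _).trans hkK)
    intro u v hu hv huv hhv
    have hE : EquiW (V (Function.update (D.c i) (D.m i + 1) (D.A i))) r u v (1 / ((D.k i : ℝ) + 1)) :=
      hgp u v hu hv hhv
    rw [← D.upd i] at hE
    obtain ⟨t', ht'⟩ := exists_val (D.c (i + 1)) (D.ok (i + 1))
    have hclose := ht.close ht' (D.m (i + 1)) (fun j hj => hcleq (i + 1) j (by omega))
    rw [← hyt, ← ht'.V_eq] at hclose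
    have hQ : Qd cl (D.m (i + 1) + 1) = Qd (D.c (i + 1)) (D.m (i + 1) + 1) :=
      Qd_congr (D.m (i + 1) + 1) (fun j hj => hcleq (i + 1) j (by omega)) _ le_rfl
    have hQpos : (1 : ℝ) ≤ Qd (D.c (i + 1)) (D.m (i + 1) + 1) := by
      exact_mod_cast (Qd_pos (D.ok (i + 1)) _).1
    have hclose' : |y - V (D.c (i + 1))| ≤ Real.exp (-D.lam (i + 1)) := by
      refine hclose.trans (le_of_eq ?_)
      rw [hQ, Real.exp_neg]
      change _ = (Real.exp (lamb (D.c (i + 1)) (D.m (i + 1))))⁻¹
      unfold lamb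
      rw [two_mul, Real.exp_add, Real.exp_log (by linarith), one_div, sq]
    have hge := D.ge' i
    have hpert := pert (y := y) (η := Real.exp (-((D.lam i) ^ (1 - γ / 2)))) huv hE (by positivity)
      (Real.exp_pos _) hi3a ?_ α β h1 h2 h3
    · refine hpert.trans ?_
      have hvu : (0 : ℝ) ≤ (v : ℝ) - u := by
        have : (u : ℝ) ≤ v := by exact_mod_cast huv
        linarith
      apply mul_le_mul_of_nonneg_right _ hvu
      have h4 : 1 / ((D.k i : ℝ) + 1) ≤ ε / 12 := by
        have h5 : (K₀ : ℝ) ≤ D.k i := by exact_mod_cast (le_max_left _ _).trans hkK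
        rw [div_le_div_iff₀ (by positivity) (by norm_num)]
        rw [div_lt_iff₀ hε] at hK₀
        nlinarith
      linarith
    · intro j hj1 hj2
      have hr0 : (0 : ℝ) < r := by positivity
      rw [abs_mul, abs_of_pos (pow_pos hr0 j)]
      have h4 : (r : ℝ) ^ j = Real.exp (j * Real.log r) := by
        rw [mul_comm, ← Real.rpow_def_of_pos hr0, Real.rpow_natCast]
      rw [h4]
      calc |y - V (D.c (i + 1))| * Real.exp (j * Real.log r) ≤
          Real.exp (-D.lam (i + 1)) * Real.exp (j * Real.log r) := by gcongr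
        _ = Real.exp (-D.lam (i + 1) + j * Real.log r) := (Real.exp_add _ _).symm
        _ ≤ Real.exp (-((D.lam i) ^ (1 - γ / 2))) := by
            apply Real.exp_le_exp.2
            have h5 : (j : ℝ) * Real.log r ≤ v * Real.log r := by
              have : (j : ℝ) ≤ v := by exact_mod_cast hj2
              have := Real.log_nonneg (by exact_mod_cast (by omega : 1 ≤ r) : (1 : ℝ) ≤ r)
              gcongr
            change (v : ℝ) * Real.log r ≤ D.lam i + ((D.lam i) ^ (1 - γ / 2)) ^ (1 + γ) at hv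
            linarith

end Pool.Agent.H607.CF
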