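import Mathlib

/-!
# Frequencies from windows
-/

set_option autoImplicit false

namespace Pool.Agent.H607.CF

open Filter Topology

/-- the number of elements of `S` in `(u, v]` -/
noncomputable def cnt (S : Set ℕ) (u v : ℕ) : ℝ := ((S ∩ Set.Ioc u v).ncard : ℝ)

lemma fin_Ioc (S : Set ℕ) (u v : ℕ) : (S ∩ Set.Ioc u v).Finite :=
  (Set.finite_Ioc u v).subset Set.inter_subset_right

lemma cnt_add (S : Set ℕ) (u v w : ℕ) (h1 : u ≤ v) (h2 : v ≤ w) :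
    cnt S u w = cnt S u v + cnt S v w := by
  unfold cnt
  have h3 : S ∩ Set.Ioc u w = (S ∩ Set.Ioc u v) ∪ (S ∩ Set.Ioc v w) := by
    rw [← Set.inter_union_distrib_left, Set.Ioc_union_Ioc_eq_Ioc h1 h2]
  have h4 : Disjoint (S ∩ Set.Ioc u v) (S ∩ Set.Ioc v w) := by
    rw [Set.disjoint_left]
    rintro x ⟨_, hx1⟩ ⟨_, hx2⟩
    have := hx1.2
    have := hx2.1
    omega
  rw [h3, Set.ncard_union_eq h4 (fin_Ioc S u v) (fin_Ioc S v w)]
  push_cast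
  ring

lemma cnt_nonneg (S : Set ℕ) (u v : ℕ) : 0 ≤ cnt S u v := Nat.cast_nonneg _

lemma cnt_le (S : Set ℕ) (u v : ℕ) (h : u ≤ v) : cnt S u v ≤ (v : ℝ) - u := by
  unfold cnt
  have h1 : (S ∩ Set.Ioc u v).ncard ≤ v - u := by
    refine (Set.ncard_le_ncard Set.inter_subset_right (Set.finite_Ioc u v)).trans ?_
    rw [← Finset.coe_Ioc, Set.ncard_coe_finset, Nat.card_Ioc]
  rw [← Nat.cast_sub h]
  exact_mod_cast h1

/-- the deviation -/
noncomputable def dev (S : Set ℕ) (ρ : ℝ) (u v : ℕ) : ℝ := |cnt S u v - ρ * ((v : ℝ) - u)|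

lemma dev_add (S : Set ℕ) (ρ : ℝ) (u v w : ℕ) (h1 : u ≤ v) (h2 : v ≤ w) :
    dev S ρ u w ≤ dev S ρ u v + dev S ρ v w := by
  unfold dev
  rw [cnt_add S u v w h1 h2]
  have : cnt S u v + cnt S v w - ρ * ((w : ℝ) - u) =
      (cnt S u v - ρ * ((v : ℝ) - u)) + (cnt S v w - ρ * ((w : ℝ) - v)) := by ring
  rw [this]
  exact abs_add_le _ _

lemma dev_le (S : Set ℕ) (ρ : ℝ) (hρ0 : 0 ≤ ρ) (hρ1 : ρ ≤ 1) (u v : ℕ) (h : u ≤ v) :
    dev S ρ u v ≤ (v : ℝ) - u := by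
  unfold dev
  have h1 := cnt_nonneg S u v
  have h2 := cnt_le S u v h
  have h3 : (0 : ℝ) ≤ (v : ℝ) - u := by
    have : (u : ℝ) ≤ v := by exact_mod_cast h
    linarith
  rw [abs_le]
  constructor <;> nlinarith

theorem freq_of_windows (S : Set ℕ) (ρ : ℝ) (hρ0 : 0 ≤ ρ) (hρ1 : ρ ≤ 1) (B E : ℕ → ℕ) (h : ℕ → ℝ)
    (hBE : ∀ᶠ i in atTop, B i ≤ E i) (hEB : ∀ᶠ i in atTop, E i ≤ B (i + 1))
    (hB : Tendsto B atTop atTop)
    (h1 : Tendsto (fun i => (B i : ℝ) / B (i + 1)) atTop (𝓝 0))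
    (h2 : Tendsto (fun i => ((B (i + 1) : ℝ) - E i) / B (i + 1)) atTop (𝓝 0))
    (h3 : Tendsto (fun i => h i / B i) atTop (𝓝 0))
    (hw : ∀ ε : ℝ, 0 < ε → ∀ᶠ i in atTop, ∀ u v : ℕ, B i ≤ u → u ≤ v → v ≤ E i →
      h i ≤ (v : ℝ) - u → dev S ρ u v ≤ ε * ((v : ℝ) - u)) :
    Tendsto (fun N : ℕ => cnt S 0 N / N) atTop (𝓝 ρ) := by
  rw [Metric.tendsto_atTop]
  intro ε' hε'
  set ε := min (1 / 2) (ε' / 9) with hε
  have hε0 : 0 < ε := by positivity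
  have hε1 : ε ≤ 1 / 2 := min_le_left _ _
  have hε2 : ε ≤ ε' / 9 := min_le_right _ _
  obtain ⟨i₀, hi₀⟩ := eventually_atTop.1 (hBE.and (hEB.and ((hB.eventually_gt_atTop 0).and
    ((h1.eventually_lt_const hε0).and ((h2.eventually_lt_const hε0).and
      ((h3.eventually_lt_const hε0).and (hw ε hε0)))))))
  refine ⟨B (i₀ + 1) + 1, fun N hN => ?_⟩
  have hN0 : (0 : ℝ) < N := by exact_mod_cast (by omega : 0 < N)
  -- the block of `N`
  obtain ⟨i, hii, hBN, hNB⟩ : ∃ i, i₀ + 1 ≤ i ∧ B i < N ∧ N ≤ B (i + 1) := by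
    have hex : ∃ j, N ≤ B (i₀ + 1 + j + 1) := by
      obtain ⟨J, hJ⟩ := eventually_atTop.1 (hB.eventually_ge_atTop N)
      exact ⟨J, hJ _ (by omega)⟩
    refine ⟨i₀ + 1 + Nat.find hex, by omega, ?_, Nat.find_spec hex⟩
    rcases Nat.eq_zero_or_pos (Nat.find hex) with h0 | h0
    · rw [h0, add_zero]
      omega
    · have := Nat.find_min hex (show Nat.find hex - 1 < Nat.find hex by omega)
      rw [show i₀ + 1 + (Nat.find hex - 1) + 1 = i₀ + 1 + Nat.find hex by omega] at this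
      omega
  obtain ⟨j, rfl⟩ : ∃ j, i = j + 1 := ⟨i - 1, by omega⟩
  obtain ⟨a1, a2, a3, a4, a5, a6, a7⟩ := hi₀ j (by omega)
  obtain ⟨b1, b2, b3, b4, b5, b6, b7⟩ := hi₀ (j + 1) (by omega)
  obtain ⟨c1, c2, c3, c4, c5, c6, c7⟩ := hi₀ (j + 2) (by omega)
  have hBj : (0 : ℝ) < B j := by exact_mod_cast a3
  have hBj1 : (0 : ℝ) < B (j + 1) := by exact_mod_cast b3
  have hBj2 : (0 : ℝ) < B (j + 1 + 1) := by exact_mod_cast c3
  rw [div_lt_iff₀ hBj1] at a4 a5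
  rw [div_lt_iff₀ hBj] at a6
  rw [div_lt_iff₀ hBj2] at b4 b5
  rw [div_lt_iff₀ hBj1] at b6
  have hBNr : (B (j + 1) : ℝ) < N := by exact_mod_cast hBN
  have hNBr : (N : ℝ) ≤ B (j + 1 + 1) := by exact_mod_cast hNB
  -- windows
  have hwin : ∀ i, (∀ u v : ℕ, B i ≤ u → u ≤ v → v ≤ E i →
      h i ≤ (v : ℝ) - u → dev S ρ u v ≤ ε * ((v : ℝ) - u)) → h i < ε * B i →
      ∀ v, B i ≤ v → v ≤ E i → dev S ρ (B i) v ≤ ε * v := by
    intro i hi1 hi2 v hv1 hv2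
    have hv1' : (B i : ℝ) ≤ v := by exact_mod_cast hv1
    have hB0 : (0 : ℝ) ≤ B i := Nat.cast_nonneg _
    by_cases hh : h i ≤ (v : ℝ) - B i
    · have := hi1 (B i) v le_rfl hv1 hv2 hh
      nlinarith
    · push Not at hh
      have := dev_le S ρ hρ0 hρ1 (B i) v hv1
      nlinarith
  have d1 : dev S ρ 0 (B j) ≤ ε * N := by
    have := dev_le S ρ hρ0 hρ1 0 (B j) (Nat.zero_le _)
    push_cast at this
    nlinarith
  have d2 : dev S ρ (B j) (E j) ≤ ε * N := by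
    have h5 := hwin j a7 a6 (E j) a1 le_rfl
    have h6 : (E j : ℝ) ≤ B (j + 1) := by exact_mod_cast a2
    nlinarith
  have d3 : dev S ρ (E j) (B (j + 1)) ≤ ε * N := by
    have := dev_le S ρ hρ0 hρ1 (E j) (B (j + 1)) a2
    nlinarith
  have d4 : dev S ρ (B (j + 1)) N ≤ 3 * ε * N := by
    by_cases hNE : N ≤ E (j + 1)
    · have h5 := hwin (j + 1) b7 b6 N hBN.le hNE
      nlinarith
    · push Not at hNE
      have h5 := hwin (j + 1) b7 b6 (E (j + 1)) b1 le_rfl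
      have h6 := dev_le S ρ hρ0 hρ1 (E (j + 1)) N hNE.le
      have h7 := dev_add S ρ (B (j + 1)) (E (j + 1)) N b1 hNE.le
      have h8 : (E (j + 1) : ℝ) < N := by exact_mod_cast hNE
      have h9 : (N : ℝ) - E (j + 1) ≤ 2 * ε * N := by nlinarith
      nlinarith
  have d5 : dev S ρ 0 N ≤ 6 * ε * N := by
    have e1 := dev_add S ρ 0 (B j) (E j) (Nat.zero_le _) a1
    have e2 := dev_add S ρ 0 (E j) (B (j + 1)) (Nat.zero_le _) a2
    have e3 := dev_add S ρ 0 (B (j + 1)) N (Nat.zero_le _) hBN.le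
    linarith
  rw [Real.dist_eq]
  unfold dev at d5
  have h10 : cnt S 0 N / N - ρ = (cnt S 0 N - ρ * ((N : ℝ) - (0 : ℕ))) / N := by
    push_cast
    field_simp
    ring
  rw [h10, abs_div, abs_of_pos hN0, div_lt_iff₀ hN0]
  nlinarith

end Pool.Agent.H607.CF
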