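import Pool.Agent.H607.CF.Build

/-!
# The limit of the construction
-/

set_option autoImplicit false

namespace Pool.Agent.H607.CF

open Finset Filter Topology
open Pool.Agent.Helper478.Surds (EquiW)

section

variable {c : ℕ → ℕ → ℤ} {m : ℕ → ℕ} {A : ℕ → ℤ}

/-- the limit sequence -/
def lim (c : ℕ → ℕ → ℤ) (n : ℕ) : ℤ := c (n + 1) n

variable (hupd : ∀ i, c (i + 1) = Function.update (c i) (m i + 1) (A i)) (hm : StrictMono m)

include hupd hm

lemma stable (i l j : ℕ) (hil : i ≤ l) (hj : j ≤ m i) : c l j = c i j := by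
  induction l, hil using Nat.le_induction with
  | base => rfl
  | succ l hl ih =>
    have := hm.monotone hl
    rw [hupd l, Function.update_of_ne (by omega), ih]

lemma lim_eq (i j : ℕ) (hj : j ≤ m i) : lim c j = c i j := by
  unfold lim
  rcases le_total i (j + 1) with h | h
  · exact stable hupd hm i (j + 1) j h hj
  · exact (stable hupd hm (j + 1) i j h (le_trans (Nat.le_succ j) (hm.id_le (j + 1)))).symm

omit hm in
lemma orig (a : ℕ → ℤ) (h0 : c 0 = a) (n : ℕ) (l : ℕ) (hn : ∀ i < l, n ≠ m i + 1) : c l n = a n := by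
  induction l with
  | zero => rw [h0]
  | succ l ih =>
    rw [hupd l, Function.update_of_ne (hn l (by omega)), ih fun i hi => hn i (by omega)]

lemma lim_ok (hok : ∀ i, Ok (c i)) : Ok (lim c) := by
  intro n
  exact hok _ n

end

/-- the asymptotic properties of the scales -/
structure Scales (γ : ℝ) (lam : ℕ → ℝ) : Prop where
  pos : ∀ i, 1 ≤ lam i
  big : ∀ i, 20 * lam i ≤ ((lam i) ^ (1 - γ / 2)) ^ (1 + γ)
  le : ∀ i, lam i + ((lam i) ^ (1 - γ / 2)) ^ (1 + γ) ≤ lam (i + 1)
  ov : Tendsto (fun i => (lam (i + 1) - lam i - ((lam i) ^ (1 - γ / 2)) ^ (1 + γ)) / lam (i + 1))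
    atTop (𝓝 0)

section

variable {γ : ℝ} {lam : ℕ → ℝ}

lemma Scales.geom (S : Scales γ lam) (i : ℕ) : 20 * lam i ≤ lam (i + 1) := by
  have := S.big i
  have := S.le i
  have := S.pos i
  linarith

lemma Scales.tends (S : Scales γ lam) : Tendsto lam atTop atTop := by
  have h : ∀ i : ℕ, (i : ℝ) ≤ lam i := by
    intro i
    induction i with
    | zero => have := S.pos 0; push_cast; linarith
    | succ i ih =>
      have := S.geom i
      have := S.pos i
      push_cast
      linarith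
  exact tendsto_atTop_mono h tendsto_natCast_atTop_atTop

lemma Scales.h_le (S : Scales γ lam) (hγ0 : 0 < γ) (i : ℕ) : (lam i) ^ (1 - γ / 2) ≤ lam i := by
  have h1 := S.pos i
  calc (lam i) ^ (1 - γ / 2) ≤ (lam i) ^ (1 : ℝ) := Real.rpow_le_rpow_of_exponent_le h1 (by linarith)
    _ = lam i := Real.rpow_one _

lemma Scales.h_small (S : Scales γ lam) (hγ0 : 0 < γ) :
    Tendsto (fun i => (lam i) ^ (1 - γ / 2) / lam i) atTop (𝓝 0) := by
  have h1 : Tendsto (fun i => (lam i) ^ (-(γ / 2))) atTop (𝓝 0) :=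
    (tendsto_rpow_neg_atTop (by positivity)).comp S.tends
  refine h1.congr fun i => ?_
  have h2 : (0 : ℝ) < lam i := by have := S.pos i; linarith
  rw [sub_eq_add_neg, Real.rpow_add h2, Real.rpow_one, mul_div_assoc, mul_comm, div_mul_cancel₀]
  exact h2.ne'

lemma Scales.G_ge (S : Scales γ lam) (hγ0 : 0 < γ) (hγ1 : γ ≤ 1 / 20) (i : ℕ) :
    (lam i) ^ (1 + γ / 4) ≤ ((lam i) ^ (1 - γ / 2)) ^ (1 + γ) := by
  have h1 := S.pos i
  rw [← Real.rpow_mul (by linarith)]
  exact Real.rpow_le_rpow_of_exponent_le h1 (by nlinarith)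

lemma Scales.ratio (S : Scales γ lam) (hγ0 : 0 < γ) (hγ1 : γ ≤ 1 / 20) :
    Tendsto (fun i => lam i / lam (i + 1)) atTop (𝓝 0) := by
  have h1 : Tendsto (fun i => (lam i) ^ (-(γ / 4))) atTop (𝓝 0) :=
    (tendsto_rpow_neg_atTop (by positivity)).comp S.tends
  refine squeeze_zero (fun i => ?_) (fun i => ?_) h1
  · have := S.pos i
    have := S.pos (i + 1)
    positivity
  · have h2 : (0 : ℝ) < lam i := by have := S.pos i; linarith
    have h3 : (0 : ℝ) < lam (i + 1) := by have := S.pos (i + 1); linarith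
    rw [div_le_iff₀ h3]
    have h4 := S.G_ge hγ0 hγ1 i
    have h5 := S.le i
    have h6 : lam i = (lam i) ^ (-(γ / 4)) * (lam i) ^ (1 + γ / 4) := by
      rw [← Real.rpow_add h2]
      rw [show -(γ / 4) + (1 + γ / 4) = 1 by ring, Real.rpow_one]
    calc lam i = (lam i) ^ (-(γ / 4)) * (lam i) ^ (1 + γ / 4) := h6
      _ ≤ (lam i) ^ (-(γ / 4)) * lam (i + 1) := by
        gcongr
        linarith

/-- frequencies from the good windows of all scales -/
theorem Scales.freq (S : Scales γ lam) (hγ0 : 0 < γ) (hγ1 : γ ≤ 1 / 20) (r : ℕ) (hr : 2 ≤ r)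
    (P : Set ℕ) (ρ : ℝ) (hρ0 : 0 ≤ ρ) (hρ1 : ρ ≤ 1)
    (hw : ∀ ε : ℝ, 0 < ε → ∀ᶠ i in atTop, ∀ u v : ℕ,
      lam i + 4 * (lam i) ^ (1 - γ / 2) ≤ u * Real.log r →
      v * Real.log r ≤ lam i + ((lam i) ^ (1 - γ / 2)) ^ (1 + γ) → u ≤ v →
      (lam i) ^ (1 - γ / 2) ≤ (v : ℝ) - u → dev P ρ u v ≤ ε * ((v : ℝ) - u)) :
    Tendsto (fun N : ℕ => cnt P 0 N / N) atTop (𝓝 ρ) := by
  have hl : 0 < Real.log r := Real.log_pos (by exact_mod_cast hr)
  set l := Real.log r with hldef
  set h : ℕ → ℝ := fun i => (lam i) ^ (1 - γ / 2) with hh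
  set G : ℕ → ℝ := fun i => (h i) ^ (1 + γ) with hG
  have hpos : ∀ i, 0 < lam i := fun i => by have := S.pos i; linarith
  have hh0 : ∀ i, 0 ≤ h i := fun i => Real.rpow_nonneg (hpos i).le _
  have hG0 : ∀ i, 0 ≤ G i := fun i => Real.rpow_nonneg (hh0 i) _
  have hbig : ∀ i, 20 * lam i ≤ G i := S.big
  have hle : ∀ i, lam i + G i ≤ lam (i + 1) := S.le
  have hhl : ∀ i, h i ≤ lam i := fun i => S.h_le hγ0 i
  have hX1 : ∀ i, (lam i + 4 * h i) / l ≤ (⌈(lam i + 4 * h i) / l⌉₊ : ℝ) := fun i => Nat.le_ceil _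
  have hX2 : ∀ i, (⌈(lam i + 4 * h i) / l⌉₊ : ℝ) ≤ (lam i + 4 * h i) / l + 1 := fun i =>
    (Nat.ceil_lt_add_one (by have := hh0 i; have := hpos i; positivity)).le
  have hY1 : ∀ i, (⌊(lam i + G i) / l⌋₊ : ℝ) ≤ (lam i + G i) / l := fun i =>
    Nat.floor_le (by have := hG0 i; have := hpos i; positivity)
  have hY2 : ∀ i, (lam i + G i) / l - 1 ≤ (⌊(lam i + G i) / l⌋₊ : ℝ) := fun i =>
    (Nat.sub_one_lt_floor _).le
  have hlamt := S.tends
  have hBpos : ∀ i, lam i / l ≤ (⌈(lam i + 4 * h i) / l⌉₊ : ℝ) := fun i => by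
    refine le_trans ?_ (hX1 i)
    have := hh0 i
    gcongr
    linarith
  refine freq_of_windows P ρ hρ0 hρ1 (fun i => ⌈(lam i + 4 * h i) / l⌉₊)
    (fun i => ⌊(lam i + G i) / l⌋₊) h ?_ ?_ ?_ ?_ ?_ ?_ ?_
  · filter_upwards [hlamt.eventually_ge_atTop l] with i hi
    have h1 : (⌈(lam i + 4 * h i) / l⌉₊ : ℝ) ≤ (⌊(lam i + G i) / l⌋₊ : ℝ) := by
      refine (hX2 i).trans (le_trans ?_ (hY2 i))
      have h2 : (lam i + G i) / l = (lam i + 4 * h i) / l + (G i - 4 * h i) / l := by ring
      have h3 : 2 ≤ (G i - 4 * h i) / l := by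
        rw [le_div_iff₀ hl]
        have := hbig i
        have := hhl i
        linarith
      linarith
    exact_mod_cast h1
  · refine Eventually.of_forall fun i => ?_
    have h1 : (⌊(lam i + G i) / l⌋₊ : ℝ) ≤ (⌈(lam (i + 1) + 4 * h (i + 1)) / l⌉₊ : ℝ) := by
      refine (hY1 i).trans (le_trans ?_ (hX1 (i + 1)))
      have := hle i
      have := hh0 (i + 1)
      exact div_le_div_of_nonneg_right (by linarith) hl.le
    exact_mod_cast h1
  · have h1 : Tendsto (fun i => lam i / l) atTop atTop := hlamt.atTop_div_const hl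
    have h2 : Tendsto (fun i => (⌈(lam i + 4 * h i) / l⌉₊ : ℝ)) atTop atTop := tendsto_atTop_mono hBpos h1
    exact tendsto_natCast_atTop_iff.1 h2
  · have h1 : Tendsto (fun i => 5 * (lam i / lam (i + 1)) + l * (lam (i + 1))⁻¹) atTop (𝓝 (5 * 0 + l * 0)) := by
      refine ((S.ratio hγ0 hγ1).const_mul 5).add (Tendsto.const_mul l ?_)
      exact tendsto_inv_atTop_zero.comp (hlamt.comp (tendsto_add_atTop_nat 1))
    simp only [mul_zero, add_zero] at h1
    refine squeeze_zero (fun i => by positivity) (fun i => ?_) h1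
    have h2 := hBpos (i + 1)
    have h3 : 0 < lam (i + 1) / l := by have := hpos (i + 1); positivity
    calc (⌈(lam i + 4 * h i) / l⌉₊ : ℝ) / (⌈(lam (i + 1) + 4 * h (i + 1)) / l⌉₊ : ℝ) ≤
          ((lam i + 4 * h i) / l + 1) / (lam (i + 1) / l) := by
            gcongr
            · have := hh0 i; have := hpos i; positivity
            · exact hX2 i
      _ ≤ (5 * lam i / l + 1) / (lam (i + 1) / l) := by
          gcongr
          have := hhl i
          linarith
      _ = 5 * (lam i / lam (i + 1)) + l * (lam (i + 1))⁻¹ := by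
          have := (hpos (i + 1)).ne'
          field_simp
  · have h1 : Tendsto (fun i => (lam (i + 1) - lam i - G i) / lam (i + 1) +
        (4 * (h (i + 1) / lam (i + 1)) + 2 * l * (lam (i + 1))⁻¹)) atTop (𝓝 (0 + (4 * 0 + 2 * l * 0))) := by
      refine S.ov.add (Tendsto.add (Tendsto.const_mul 4 ?_) (Tendsto.const_mul (2 * l) ?_))
      · exact (S.h_small hγ0).comp (tendsto_add_atTop_nat 1)
      · exact tendsto_inv_atTop_zero.comp (hlamt.comp (tendsto_add_atTop_nat 1))
    simp only [mul_zero, add_zero] at h1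
    refine squeeze_zero (fun i => ?_) (fun i => ?_) h1
    · apply div_nonneg _ (Nat.cast_nonneg _)
      have h2 : (⌊(lam i + G i) / l⌋₊ : ℝ) ≤ (⌈(lam (i + 1) + 4 * h (i + 1)) / l⌉₊ : ℝ) := by
        refine (hY1 i).trans (le_trans ?_ (hX1 (i + 1)))
        have := hle i
        have := hh0 (i + 1)
        exact div_le_div_of_nonneg_right (by linarith) hl.le
      linarith
    · have h2 := hBpos (i + 1)
      have h3 : 0 < lam (i + 1) / l := by have := hpos (i + 1); positivity
      have h4 : (⌈(lam (i + 1) + 4 * h (i + 1)) / l⌉₊ : ℝ) - (⌊(lam i + G i) / l⌋₊ : ℝ) ≤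
          (lam (i + 1) + 4 * h (i + 1) - lam i - G i) / l + 2 := by
        have := hX2 (i + 1)
        have := hY2 i
        have e1 : (lam (i + 1) + 4 * h (i + 1) - lam i - G i) / l =
          (lam (i + 1) + 4 * h (i + 1)) / l - (lam i + G i) / l := by ring
        rw [e1]
        linarith
      have h5 : 0 ≤ (lam (i + 1) + 4 * h (i + 1) - lam i - G i) / l + 2 := by
        have := hle i
        have := hh0 (i + 1)
        have : 0 ≤ (lam (i + 1) + 4 * h (i + 1) - lam i - G i) / l := by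
          apply div_nonneg _ hl.le
          linarith
        linarith
      calc ((⌈(lam (i + 1) + 4 * h (i + 1)) / l⌉₊ : ℝ) - (⌊(lam i + G i) / l⌋₊ : ℝ)) /
            (⌈(lam (i + 1) + 4 * h (i + 1)) / l⌉₊ : ℝ) ≤
            ((lam (i + 1) + 4 * h (i + 1) - lam i - G i) / l + 2) / (lam (i + 1) / l) := by gcongr
        _ = (lam (i + 1) - lam i - G i) / lam (i + 1) +
            (4 * (h (i + 1) / lam (i + 1)) + 2 * l * (lam (i + 1))⁻¹) := by
          have := (hpos (i + 1)).ne'
          field_simp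
          ring
  · have h1 : Tendsto (fun i => l * (h i / lam i)) atTop (𝓝 (l * 0)) := (S.h_small hγ0).const_mul l
    rw [mul_zero] at h1
    refine squeeze_zero (fun i => by have := hh0 i; positivity) (fun i => ?_) h1
    have h2 := hBpos i
    have h3 : 0 < lam i / l := by have := hpos i; positivity
    calc h i / (⌈(lam i + 4 * h i) / l⌉₊ : ℝ) ≤ h i / (lam i / l) := by
          have := hh0 i
          gcongr
      _ = l * (h i / lam i) := by
          have := (hpos i).ne'
          field_simp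
  · intro ε hε
    filter_upwards [hw ε hε] with i hi u v hu huv hv hhv
    apply hi u v _ _ huv hhv
    · have h1 : (⌈(lam i + 4 * h i) / l⌉₊ : ℝ) ≤ u := by exact_mod_cast hu
      have h2 := (hX1 i).trans h1
      rwa [div_le_iff₀ hl] at h2
    · have h1 : (v : ℝ) ≤ (⌊(lam i + G i) / l⌋₊ : ℝ) := by exact_mod_cast hv
      have h2 := h1.trans (hY1 i)
      rwa [le_div_iff₀ hl] at h2

end

end Pool.Agent.H607.CF
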