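import Pool.Agent.H607.CF.Limit

/-!
# Few partial quotients changed
-/

set_option autoImplicit false

namespace Pool.Agent.H607.CF

open Finset Filter Topology
open Pool.Agent.Helper478.Surds (EquiW)

lemma threshold {γ : ℝ} (hγ0 : 0 < γ) (hγ1 : γ ≤ 1 / 20) : ∃ L₀ : ℝ, 3 ≤ L₀ ∧ ∀ L : ℝ, L₀ ≤ L →
    20 * L ≤ (L ^ (1 - γ / 2)) ^ (1 + γ) ∧ L ^ (1 + γ / 4) ≤ (L ^ (1 - γ / 2)) ^ (1 + γ) := by
  have h1 := (tendsto_rpow_atTop (show 0 < γ / 4 by positivity)).eventually_ge_atTop (20 : ℝ)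
  obtain ⟨L₁, hL₁⟩ := eventually_atTop.1 h1
  refine ⟨max L₁ 3, le_max_right _ _, fun L hL => ?_⟩
  have h2 : 3 ≤ L := (le_max_right _ _).trans hL
  have h3 := hL₁ L ((le_max_left _ _).trans hL)
  have h4 : L ^ (1 + γ / 4) ≤ (L ^ (1 - γ / 2)) ^ (1 + γ) := by
    rw [← Real.rpow_mul (by linarith)]
    exact Real.rpow_le_rpow_of_exponent_le (by linarith) (by nlinarith)
  refine ⟨le_trans ?_ h4, h4⟩
  rw [Real.rpow_add (by linarith), Real.rpow_one]
  nlinarith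

lemma lamb_congr {c c' : ℕ → ℤ} (m : ℕ) (h : ∀ j ≤ m, c j = c' j) : lamb c m = lamb c' m := by
  unfold lamb
  rw [Qd_congr (m + 1) (fun j hj => h j (by omega)) (m + 1) le_rfl]

lemma lamb_succ_le {c : ℕ → ℤ} (hc : Ok c) (n : ℕ) :
    lamb c (n + 1) ≤ lamb c n + 2 * Real.log ((c (n + 1) : ℝ) + 1) := by
  have := lamb_le hc n (n + 1) (Nat.le_succ n)
  rwa [show Ioc n (n + 1) = {n + 1} by ext; simp, sum_singleton] at this

/-- the data of the construction -/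
structure Data (γ : ℝ) (a : ℕ → ℤ) (m₀ : ℕ) where
  c : ℕ → ℕ → ℤ
  m : ℕ → ℕ
  k : ℕ → ℕ
  A : ℕ → ℤ
  c0 : c 0 = a
  m0 : m 0 = m₀
  ok : ∀ i, Ok (c i)
  gp : ∀ i, GP γ (k i) (c i) (m i) (A i)
  mx : ∀ i k', k' ≤ i → (∃ A', GP γ k' (c i) (m i) A') → k' ≤ k i
  upd : ∀ i, c (i + 1) = Function.update (c i) (m i + 1) (A i)
  lt : ∀ i, m i < m (i + 1)
  ge : ∀ i, lamb (c i) (m i) + (hh γ (c i) (m i)) ^ (1 + γ) + hh γ (c i) (m i) ≤
    lamb (c (i + 1)) (m (i + 1))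
  mn : ∀ i m', m i < m' → m' < m (i + 1) →
    lamb (c (i + 1)) m' < lamb (c i) (m i) + (hh γ (c i) (m i)) ^ (1 + γ) + hh γ (c i) (m i)

lemma exists_data (γ : ℝ) (a : ℕ → ℤ) (ha : Ok a) (m₀ : ℕ) : Nonempty (Data γ a m₀) := by
  obtain ⟨st, h0, hok, hs⟩ := exists_states γ a ha m₀
  choose k A hGP hmax hupd hlt hge hmn using hs
  have e0 : (st 0).1 = a := by rw [h0]
  have e1 : (st 0).2 = m₀ := by rw [h0]
  exact ⟨⟨fun i => (st i).1, fun i => (st i).2, k, A, e0, e1, hok, hGP, hmax, hupd, hlt, hge, hmn⟩⟩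

namespace Data

variable {γ : ℝ} {a : ℕ → ℤ} {m₀ : ℕ} (D : Data γ a m₀)

/-- the scale -/
noncomputable def lam (i : ℕ) : ℝ := lamb (D.c i) (D.m i)

lemma mono : StrictMono D.m := strictMono_nat_of_lt_succ D.lt

lemma hh_eq (i : ℕ) : hh γ (D.c i) (D.m i) = (D.lam i) ^ (1 - γ / 2) := rfl

lemma lam_nonneg (i : ℕ) : 0 ≤ D.lam i := lamb_nonneg (D.ok i) _

lemma ge' (i : ℕ) : D.lam i + ((D.lam i) ^ (1 - γ / 2)) ^ (1 + γ) + (D.lam i) ^ (1 - γ / 2) ≤
    D.lam (i + 1) := D.ge i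

lemma lam_mono (i : ℕ) : D.lam i ≤ D.lam (i + 1) := by
  have h1 := D.ge' i
  have h2 : 0 ≤ (D.lam i) ^ (1 - γ / 2) := Real.rpow_nonneg (D.lam_nonneg i) _
  have h3 : 0 ≤ ((D.lam i) ^ (1 - γ / 2)) ^ (1 + γ) := Real.rpow_nonneg h2 _
  linarith

lemma lam_zero_ge (i : ℕ) : D.lam 0 ≤ D.lam i := by
  induction i with
  | zero => exact le_rfl
  | succ i ih => exact ih.trans (D.lam_mono i)

lemma A_log (i : ℕ) : 2 * Real.log ((D.A i : ℝ) + 1) ≤ 4 * (D.lam i) ^ (1 - γ / 2) + 2 := by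
  have h1 := (D.gp i).1
  have h2 := (D.gp i).2.1
  rw [D.hh_eq] at h2
  have h1' : (1 : ℝ) ≤ D.A i := by exact_mod_cast h1
  have h3 : Real.log ((D.A i : ℝ) + 1) ≤ Real.log 2 + 2 * (D.lam i) ^ (1 - γ / 2) := by
    rw [← Real.log_exp (2 * (D.lam i) ^ (1 - γ / 2)), ← Real.log_mul (by norm_num) (Real.exp_pos _).ne']
    apply Real.log_le_log (by linarith)
    linarith
  have h4 := Real.log_two_lt_d9
  linarith

/-- a changed place is not the next place -/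
lemma gap (L₀ : ℝ) (hγ0 : 0 < γ) (hL₀ : 3 ≤ L₀)
    (hL : ∀ L : ℝ, L₀ ≤ L → 20 * L ≤ (L ^ (1 - γ / 2)) ^ (1 + γ) ∧
      L ^ (1 + γ / 4) ≤ (L ^ (1 - γ / 2)) ^ (1 + γ))
    (h0 : L₀ ≤ D.lam 0) (i : ℕ) : D.m i + 1 < D.m (i + 1) := by
  have h1 := D.lt i
  rcases Nat.lt_or_ge (D.m i + 1) (D.m (i + 1)) with h | h
  · exact h
  exfalso
  have h2 : D.m (i + 1) = D.m i + 1 := by omega
  have h3 := lamb_succ_le (D.ok (i + 1)) (D.m i)
  have h4 : lamb (D.c (i + 1)) (D.m i) = D.lam i := by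
    apply lamb_congr
    intro j hj
    rw [D.upd i, Function.update_of_ne (by omega)]
  have h5 : D.c (i + 1) (D.m i + 1) = D.A i := by rw [D.upd i, Function.update_self]
  rw [h4, h5, ← h2] at h3
  have h6 := D.A_log i
  have h7 := D.ge' i
  have h8 := (hL (D.lam i) (h0.trans (D.lam_zero_ge i))).1
  have h9 : L₀ ≤ D.lam i := h0.trans (D.lam_zero_ge i)
  have h10 : (D.lam i) ^ (1 - γ / 2) ≤ D.lam i := by
    calc (D.lam i) ^ (1 - γ / 2) ≤ (D.lam i) ^ (1 : ℝ) :=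
          Real.rpow_le_rpow_of_exponent_le (by linarith) (by linarith)
      _ = D.lam i := Real.rpow_one _
  have h11 : 0 ≤ (D.lam i) ^ (1 - γ / 2) := Real.rpow_nonneg (D.lam_nonneg i) _
  change D.lam (i + 1) ≤ _ at h3
  linarith

/-- the places at which the sequences agree with `a` -/
lemma orig' (l n : ℕ) (hn : ∀ i < l, n ≠ D.m i + 1) : D.c l n = a n :=
  orig D.upd a D.c0 n l hn

lemma c_eq (i n : ℕ) (hn : D.m i + 1 < n) : D.c (i + 1) n = a n := by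
  apply D.orig'
  intro l hl
  have := D.mono.monotone (show l ≤ i by omega)
  omega

/-- upper bound for the scales -/
lemma lam_le (L₀ : ℝ) (hγ0 : 0 < γ) (hL₀ : 3 ≤ L₀)
    (hL : ∀ L : ℝ, L₀ ≤ L → 20 * L ≤ (L ^ (1 - γ / 2)) ^ (1 + γ) ∧
      L ^ (1 + γ / 4) ≤ (L ^ (1 - γ / 2)) ^ (1 + γ))
    (h0 : L₀ ≤ D.lam 0) (ha : ∀ n, m₀ ≤ n → Real.log ((a n : ℝ) + 1) ≤ n / 2) (i : ℕ) :
    D.lam (i + 1) ≤ 2 * (D.m (i + 1) : ℝ) ^ 2 := by
  have hgap := D.gap L₀ hγ0 hL₀ hL h0 i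
  have h3 := lamb_succ_le (D.ok (i + 1)) (D.m i)
  have h4 : lamb (D.c (i + 1)) (D.m i) = D.lam i := by
    apply lamb_congr
    intro j hj
    rw [D.upd i, Function.update_of_ne (by omega)]
  have h5 : D.c (i + 1) (D.m i + 1) = D.A i := by rw [D.upd i, Function.update_self]
  rw [h4, h5] at h3
  have h6 := D.A_log i
  have h7 := lamb_le (D.ok (i + 1)) (D.m i + 1) (D.m (i + 1)) hgap.le
  have h8 : ∑ j ∈ Ioc (D.m i + 1) (D.m (i + 1)), Real.log ((D.c (i + 1) j : ℝ) + 1) ≤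
      (D.m (i + 1) : ℝ) ^ 2 / 2 := by
    calc ∑ j ∈ Ioc (D.m i + 1) (D.m (i + 1)), Real.log ((D.c (i + 1) j : ℝ) + 1) ≤
        ∑ j ∈ Ioc (D.m i + 1) (D.m (i + 1)), ((D.m (i + 1) : ℝ) / 2) := by
          apply sum_le_sum
          intro j hj
          rw [mem_Ioc] at hj
          rw [D.c_eq i j hj.1]
          have h9 : m₀ ≤ j := by
            have := D.mono.monotone (Nat.zero_le i)
            rw [D.m0] at this
            omega
          refine (ha j h9).trans ?_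
          have : (j : ℝ) ≤ D.m (i + 1) := by exact_mod_cast hj.2
          linarith
      _ = ((Ioc (D.m i + 1) (D.m (i + 1))).card : ℝ) * ((D.m (i + 1) : ℝ) / 2) := by
          rw [sum_const, nsmul_eq_mul]
      _ ≤ (D.m (i + 1) : ℝ) * ((D.m (i + 1) : ℝ) / 2) := by
          have : ((Ioc (D.m i + 1) (D.m (i + 1))).card : ℝ) ≤ D.m (i + 1) := by
            rw [Nat.card_Ioc]
            exact_mod_cast Nat.sub_le _ _
          gcongr
      _ = (D.m (i + 1) : ℝ) ^ 2 / 2 := by ring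
  have h9 : L₀ ≤ D.lam i := h0.trans (D.lam_zero_ge i)
  have h10 : (D.lam i) ^ (1 - γ / 2) ≤ D.lam i := by
    calc (D.lam i) ^ (1 - γ / 2) ≤ (D.lam i) ^ (1 : ℝ) :=
          Real.rpow_le_rpow_of_exponent_le (by linarith) (by linarith)
      _ = D.lam i := Real.rpow_one _
  have h11 : 0 ≤ (D.lam i) ^ (1 - γ / 2) := Real.rpow_nonneg (D.lam_nonneg i) _
  have h12 := D.ge' i
  have h13 := (hL (D.lam i) h9).1
  change D.lam (i + 1) ≤ _ at h7
  linarith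

/-- the overshoot -/
lemma overshoot (L₀ : ℝ) (hγ0 : 0 < γ) (hL₀ : 3 ≤ L₀)
    (hL : ∀ L : ℝ, L₀ ≤ L → 20 * L ≤ (L ^ (1 - γ / 2)) ^ (1 + γ) ∧
      L ^ (1 + γ / 4) ≤ (L ^ (1 - γ / 2)) ^ (1 + γ))
    (h0 : L₀ ≤ D.lam 0) (i : ℕ) :
    D.lam (i + 1) ≤ D.lam i + ((D.lam i) ^ (1 - γ / 2)) ^ (1 + γ) + (D.lam i) ^ (1 - γ / 2) +
      2 * Real.log ((a (D.m (i + 1)) : ℝ) + 1) := by
  have hgap := D.gap L₀ hγ0 hL₀ hL h0 i
  obtain ⟨p, hp⟩ : ∃ p, D.m (i + 1) = p + 1 := ⟨D.m (i + 1) - 1, by omega⟩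
  have h1 := D.mn i p (by omega) (by omega)
  have h2 := lamb_succ_le (D.ok (i + 1)) p
  rw [← hp, D.c_eq i (D.m (i + 1)) hgap] at h2
  change D.lam (i + 1) ≤ _ at h2
  change _ < D.lam i + ((D.lam i) ^ (1 - γ / 2)) ^ (1 + γ) + (D.lam i) ^ (1 - γ / 2) at h1
  linarith

/-- exponential growth of the logarithm of the scales -/
lemma log_lam (L₀ : ℝ) (hγ0 : 0 < γ) (hL₀ : 3 ≤ L₀)
    (hL : ∀ L : ℝ, L₀ ≤ L → 20 * L ≤ (L ^ (1 - γ / 2)) ^ (1 + γ) ∧
      L ^ (1 + γ / 4) ≤ (L ^ (1 - γ / 2)) ^ (1 + γ))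
    (h0 : L₀ ≤ D.lam 0) (i : ℕ) : (1 + γ / 4) ^ i ≤ Real.log (D.lam i) := by
  induction i with
  | zero =>
    rw [pow_zero, Real.le_log_iff_exp_le (by linarith)]
    have := Real.exp_one_lt_d9
    linarith
  | succ i ih =>
    have h9 : L₀ ≤ D.lam i := h0.trans (D.lam_zero_ge i)
    have h1 := (hL (D.lam i) h9).2
    have h2 := D.ge' i
    have h3 : 0 ≤ (D.lam i) ^ (1 - γ / 2) := Real.rpow_nonneg (D.lam_nonneg i) _
    have h4 : (D.lam i) ^ (1 + γ / 4) ≤ D.lam (i + 1) := by linarith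
    have h5 : 0 < (D.lam i) ^ (1 + γ / 4) := Real.rpow_pos_of_pos (by linarith) _
    have h6 := Real.log_le_log h5 h4
    rw [Real.log_rpow (by linarith)] at h6
    calc (1 + γ / 4) ^ (i + 1) = (1 + γ / 4) * (1 + γ / 4) ^ i := by ring
      _ ≤ (1 + γ / 4) * Real.log (D.lam i) := by gcongr
      _ ≤ _ := h6

/-- the place is at most of the size of the scale -/
lemma m_le (i : ℕ) : (D.m i : ℝ) ≤ 2 * D.lam i + 1 := by
  have := lamb_ge (D.ok i) (D.m i)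
  change _ ≤ D.lam i at this
  linarith

lemma scales (L₀ : ℝ) (hγ0 : 0 < γ) (hγ1 : γ ≤ 1 / 20) (hL₀ : 3 ≤ L₀)
    (hL : ∀ L : ℝ, L₀ ≤ L → 20 * L ≤ (L ^ (1 - γ / 2)) ^ (1 + γ) ∧
      L ^ (1 + γ / 4) ≤ (L ^ (1 - γ / 2)) ^ (1 + γ))
    (h0 : L₀ ≤ D.lam 0) (ha : ∀ n, 1 ≤ n → 1 ≤ a n)
    (hlim : Tendsto (fun n : ℕ => Real.log ((a n : ℝ) + 1) / n) atTop (𝓝 0)) : Scales γ D.lam := by
  have hge : ∀ i, L₀ ≤ D.lam i := fun i => h0.trans (D.lam_zero_ge i)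
  have hpos : ∀ i, 1 ≤ D.lam i := fun i => by have := hge i; linarith
  have hle : ∀ i, D.lam i + ((D.lam i) ^ (1 - γ / 2)) ^ (1 + γ) ≤ D.lam (i + 1) := fun i => by
    have h1 := D.ge' i
    have h2 : 0 ≤ (D.lam i) ^ (1 - γ / 2) := Real.rpow_nonneg (D.lam_nonneg i) _
    linarith
  have hbig : ∀ i, 20 * D.lam i ≤ ((D.lam i) ^ (1 - γ / 2)) ^ (1 + γ) := fun i => (hL _ (hge i)).1
  -- a first structure without the overshoot, to get the ratio
  have hgeom : ∀ i, 20 * D.lam i ≤ D.lam (i + 1) := fun i => by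
    have := hbig i
    have := hle i
    have := hpos i
    linarith
  have htend : Tendsto D.lam atTop atTop := by
    have h : ∀ i : ℕ, (i : ℝ) ≤ D.lam i := by
      intro i
      induction i with
      | zero => have := hpos 0; push_cast; linarith
      | succ i ih =>
        have := hgeom i
        have := hpos i
        push_cast
        linarith
    exact tendsto_atTop_mono h tendsto_natCast_atTop_atTop
  refine ⟨hpos, hbig, hle, ?_⟩
  -- the ratio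
  have hratio : Tendsto (fun i => D.lam i / D.lam (i + 1)) atTop (𝓝 0) := by
    have h1 : Tendsto (fun i => (D.lam i) ^ (-(γ / 4))) atTop (𝓝 0) :=
      (tendsto_rpow_neg_atTop (by positivity)).comp htend
    refine squeeze_zero (fun i => ?_) (fun i => ?_) h1
    · have := hpos i
      have := hpos (i + 1)
      positivity
    · have h2 : (0 : ℝ) < D.lam i := by have := hpos i; linarith
      have h3 : (0 : ℝ) < D.lam (i + 1) := by have := hpos (i + 1); linarith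
      rw [div_le_iff₀ h3]
      have h4 := (hL _ (hge i)).2
      have h5 := hle i
      have h6 : D.lam i = (D.lam i) ^ (-(γ / 4)) * (D.lam i) ^ (1 + γ / 4) := by
        rw [← Real.rpow_add h2]
        rw [show -(γ / 4) + (1 + γ / 4) = 1 by ring, Real.rpow_one]
      calc D.lam i = (D.lam i) ^ (-(γ / 4)) * (D.lam i) ^ (1 + γ / 4) := h6
        _ ≤ (D.lam i) ^ (-(γ / 4)) * D.lam (i + 1) := by
          gcongr
          linarith
  have hmt : Tendsto (fun i => D.m (i + 1)) atTop atTop := D.mono.tendsto_atTop.comp (tendsto_add_atTop_nat 1)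
  have h1 : Tendsto (fun i => D.lam i / D.lam (i + 1) +
      6 * (Real.log ((a (D.m (i + 1)) : ℝ) + 1) / (D.m (i + 1) : ℕ))) atTop (𝓝 (0 + 6 * 0)) :=
    hratio.add ((hlim.comp hmt).const_mul 6)
  rw [mul_zero, add_zero] at h1
  refine squeeze_zero (fun i => ?_) (fun i => ?_) h1
  · have := hle i
    have := hpos (i + 1)
    apply div_nonneg <;> linarith
  · have h2 : (0 : ℝ) < D.lam (i + 1) := by have := hpos (i + 1); linarith
    have h3 := D.overshoot L₀ hγ0 hL₀ hL h0 i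
    have h4 : (D.lam i) ^ (1 - γ / 2) ≤ D.lam i := by
      calc (D.lam i) ^ (1 - γ / 2) ≤ (D.lam i) ^ (1 : ℝ) :=
            Real.rpow_le_rpow_of_exponent_le (hpos i) (by linarith)
        _ = D.lam i := Real.rpow_one _
    have hmp : 1 ≤ D.m (i + 1) := by have := D.lt i; omega
    have hmp' : (0 : ℝ) < (D.m (i + 1) : ℕ) := by exact_mod_cast hmp
    have h5 : 0 ≤ Real.log ((a (D.m (i + 1)) : ℝ) + 1) := by
      apply Real.log_nonneg
      have : (1 : ℝ) ≤ a (D.m (i + 1)) := by exact_mod_cast ha _ hmp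
      linarith
    have h6 : (D.m (i + 1) : ℝ) ≤ 3 * D.lam (i + 1) := by
      have := D.m_le (i + 1)
      have := hpos (i + 1)
      linarith
    have h7 : (1 : ℝ) / D.lam (i + 1) ≤ 3 / (D.m (i + 1) : ℕ) := by
      rw [div_le_div_iff₀ h2 hmp']
      linarith
    calc (D.lam (i + 1) - D.lam i - ((D.lam i) ^ (1 - γ / 2)) ^ (1 + γ)) / D.lam (i + 1) ≤
          (D.lam i + 2 * Real.log ((a (D.m (i + 1)) : ℝ) + 1)) / D.lam (i + 1) := by
            apply div_le_div_of_nonneg_right _ h2.le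
            linarith
      _ = D.lam i / D.lam (i + 1) + 2 * Real.log ((a (D.m (i + 1)) : ℝ) + 1) * (1 / D.lam (i + 1)) := by
          ring
      _ ≤ D.lam i / D.lam (i + 1) + 2 * Real.log ((a (D.m (i + 1)) : ℝ) + 1) * (3 / (D.m (i + 1) : ℕ)) := by
          gcongr
      _ = _ := by ring

end Data

end Pool.Agent.H607.CF
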