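import Pool.Agent.H607.CF.Pert

/-!
# Block frequencies from the frequencies of intervals
-/

set_option autoImplicit false

namespace Pool.Agent.H607.CF

open Finset Filter Topology

/-- the number with given digits -/
def wd (b : ℕ) (w : ℕ → ℕ) : ℕ → ℤ
  | 0 => 0
  | m + 1 => b * wd b w m + w m

lemma wd_nonneg (b : ℕ) (w : ℕ → ℕ) (m : ℕ) : 0 ≤ wd b w m := by
  induction m with
  | zero => exact le_rfl
  | succ m ih => rw [wd]; positivity

lemma wd_lt (b : ℕ) (w : ℕ → ℕ) (m : ℕ) (hw : ∀ t < m, w t < b) : wd b w m + 1 ≤ (b : ℤ) ^ m := by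
  induction m with
  | zero => simp [wd]
  | succ m ih =>
    have h1 := ih fun t ht => hw t (by omega)
    have h2 : (w m : ℤ) + 1 ≤ b := by exact_mod_cast hw m (by omega)
    have h3 : (0 : ℤ) ≤ b := Int.natCast_nonneg b
    rw [wd, pow_succ]
    nlinarith

lemma floor_step (b : ℕ) (hb : 1 ≤ b) (z : ℝ) : ⌊z * b⌋ = b * ⌊z⌋ + ⌊z * b⌋ % b := by
  have h1 : ⌊z * b⌋ / (b : ℤ) = ⌊z⌋ := by
    rw [← Int.floor_div_natCast]
    congr 1
    rw [mul_div_assoc, div_self, mul_one]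
    exact_mod_cast (by omega : b ≠ 0)
  conv_lhs => rw [← Int.mul_ediv_add_emod ⌊z * b⌋ b, h1]

lemma word_iff (b : ℕ) (hb : 1 ≤ b) (w : ℕ → ℕ) (z : ℝ) (m : ℕ) (hw : ∀ t < m, w t < b) :
    (∀ t < m, ⌊z * (b : ℝ) ^ (t + 1)⌋ % (b : ℤ) = w t) ↔
      ⌊z * (b : ℝ) ^ m⌋ - ⌊z⌋ * (b : ℤ) ^ m = wd b w m := by
  induction m with
  | zero => simp [wd]
  | succ m ih =>
    have ih' := ih fun t ht => hw t (by omega)
    have h1 : (∀ t < m + 1, ⌊z * (b : ℝ) ^ (t + 1)⌋ % (b : ℤ) = w t) ↔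
        (∀ t < m, ⌊z * (b : ℝ) ^ (t + 1)⌋ % (b : ℤ) = w t) ∧ ⌊z * (b : ℝ) ^ (m + 1)⌋ % (b : ℤ) = w m := by
      constructor
      · intro h
        exact ⟨fun t ht => h t (by omega), h m (by omega)⟩
      · rintro ⟨h, h'⟩ t ht
        rcases Nat.lt_succ_iff_lt_or_eq.1 ht with h2 | rfl
        · exact h t h2
        · exact h'
    rw [h1, ih', wd]
    have h2 := floor_step b hb (z * (b : ℝ) ^ m)
    rw [mul_assoc, ← pow_succ] at h2
    set d := ⌊z * (b : ℝ) ^ (m + 1)⌋ % (b : ℤ) with hd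
    have hb0 : (0 : ℤ) < b := by exact_mod_cast (by omega : 0 < b)
    have hd0 : 0 ≤ d := Int.emod_nonneg _ hb0.ne'
    have hd1 : d < b := Int.emod_lt_of_pos _ hb0
    have hw1 : (w m : ℤ) < b := by exact_mod_cast hw m (by omega)
    have hw0 : (0 : ℤ) ≤ w m := Int.natCast_nonneg _
    rw [h2]
    constructor
    · rintro ⟨h3, h4⟩
      rw [← h3, h4]
      ring
    · intro h3
      have h4 : (b : ℤ) * ((⌊z * (b : ℝ) ^ m⌋ - ⌊z⌋ * (b : ℤ) ^ m) - wd b w m) = w m - d := by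
        linear_combination h3
      have h5 : (⌊z * (b : ℝ) ^ m⌋ - ⌊z⌋ * (b : ℤ) ^ m) - wd b w m = 0 := by
        by_contra h6
        rcases lt_or_gt_of_ne h6 with h7 | h7
        · have : (b : ℤ) * ((⌊z * (b : ℝ) ^ m⌋ - ⌊z⌋ * (b : ℤ) ^ m) - wd b w m) ≤ b * (-1) :=
            mul_le_mul_of_nonneg_left (by omega) hb0.le
          linarith
        · have : (b : ℤ) * 1 ≤ (b : ℤ) * ((⌊z * (b : ℝ) ^ m⌋ - ⌊z⌋ * (b : ℤ) ^ m) - wd b w m) :=
            mul_le_mul_of_nonneg_left (by omega) hb0.le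
          linarith
      rw [h5, mul_zero] at h4
      exact ⟨by linarith, by linarith⟩

lemma fract_iff (b : ℕ) (hb : 1 ≤ b) (z : ℝ) (m : ℕ) (W : ℤ) :
    ⌊z * (b : ℝ) ^ m⌋ - ⌊z⌋ * (b : ℤ) ^ m = W ↔
      (W : ℝ) / (b : ℝ) ^ m ≤ Int.fract z ∧ Int.fract z < ((W : ℝ) + 1) / (b : ℝ) ^ m := by
  have hb0 : (0 : ℝ) < (b : ℝ) ^ m := by
    have : (0 : ℝ) < b := by exact_mod_cast (by omega : 0 < b)
    positivity
  rw [div_le_iff₀ hb0, lt_div_iff₀ hb0]
  have h1 : z * (b : ℝ) ^ m = Int.fract z * (b : ℝ) ^ m + ((⌊z⌋ * (b : ℤ) ^ m : ℤ) : ℝ) := by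
    push_cast
    rw [← add_mul, Int.fract_add_floor]
  rw [h1, Int.floor_add_intCast, add_sub_cancel_right, Int.floor_eq_iff]

theorem normal_of_freq (b : ℕ) (hb : 2 ≤ b) (x : ℝ)
    (h : ∀ α β : ℝ, 0 ≤ α → α < β → β ≤ 1 →
      Tendsto (fun N : ℕ => cnt (pos b x α β) 0 N / N) atTop (𝓝 (β - α)))
    (m : ℕ) (w : Fin m → Fin b) (P : ℕ → Prop) [DecidablePred P]
    (hP : ∀ i, P i ↔ ∀ t : Fin m, ⌊x * (b : ℝ) ^ (i + (t : ℕ))⌋ % (b : ℤ) = ((w t : ℕ) : ℤ)) :
    Tendsto (fun N : ℕ => (((Icc 1 N).filter P).card : ℝ) / (N : ℝ)) atTop (𝓝 (1 / (b : ℝ) ^ m)) := by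
  classical
  set w' : ℕ → ℕ := fun t => if h : t < m then (w ⟨t, h⟩ : ℕ) else 0 with hw'
  have hw1 : ∀ t < m, w' t < b := by
    intro t ht
    rw [hw']
    simp only [ht, dite_true]
    exact (w ⟨t, ht⟩).2
  set W := wd b w' m with hW
  have hb0 : (0 : ℝ) < (b : ℝ) ^ m := by positivity
  have hW0 : (0 : ℝ) ≤ W := by exact_mod_cast wd_nonneg b w' m
  have hW1 : (W : ℝ) + 1 ≤ (b : ℝ) ^ m := by exact_mod_cast wd_lt b w' m hw1
  have hPP : ∀ j, P (j + 1) ↔ j ∈ pos b x (W / (b : ℝ) ^ m) ((W + 1) / (b : ℝ) ^ m) := by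
    intro j
    rw [hP]
    have h1 : (∀ t : Fin m, ⌊x * (b : ℝ) ^ (j + 1 + (t : ℕ))⌋ % (b : ℤ) = ((w t : ℕ) : ℤ)) ↔
        ∀ t < m, ⌊(x * (b : ℝ) ^ j) * (b : ℝ) ^ (t + 1)⌋ % (b : ℤ) = w' t := by
      constructor
      · intro h2 t ht
        have h3 := h2 ⟨t, ht⟩
        simp only at h3
        rw [hw']
        simp only [ht, dite_true]
        rw [← h3, mul_assoc, ← pow_add]
        congr 4
        omega
      · intro h2 t
        have h3 := h2 t t.2
        rw [hw'] at h3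
        simp only [t.2, dite_true] at h3
        rw [← h3, mul_assoc, ← pow_add]
        congr 4
        omega
    rw [h1, word_iff b (by omega) w' _ m hw1, fract_iff b (by omega)]
    rfl
  have hlim := h (W / (b : ℝ) ^ m) ((W + 1) / (b : ℝ) ^ m) (by positivity)
    (by gcongr; linarith) (by rw [div_le_one hb0]; exact hW1)
  rw [show ((W : ℝ) + 1) / (b : ℝ) ^ m - W / (b : ℝ) ^ m = 1 / (b : ℝ) ^ m by ring] at hlim
  set S := pos b x (W / (b : ℝ) ^ m) ((W + 1) / (b : ℝ) ^ m) with hS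
  have hcnt : ∀ N : ℕ, |(((Icc 1 N).filter P).card : ℝ) - cnt S 0 N| ≤ 1 := by
    intro N
    have e1 : cnt S 0 N = (((Icc 1 N).filter fun j => j ∈ S).card : ℝ) := by
      unfold cnt
      rw [← Set.ncard_coe_finset]
      congr 2
      ext j
      simp only [Set.mem_inter_iff, Set.mem_Ioc, mem_coe, mem_filter, mem_Icc]
      constructor
      · rintro ⟨h1, h2, h3⟩
        exact ⟨⟨h2, h3⟩, h1⟩
      · rintro ⟨⟨h2, h3⟩, h1⟩
        exact ⟨h1, h2, h3⟩
    have e2 : ((Icc 1 N).filter P).card = ((range N).filter fun j => j ∈ S).card := by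
      rw [← card_image_of_injective ((range N).filter fun j => j ∈ S) (add_left_injective 1)]
      congr 1
      ext i
      simp only [mem_filter, mem_Icc, mem_image, mem_range]
      constructor
      · rintro ⟨⟨h1, h2⟩, h3⟩
        refine ⟨i - 1, ⟨by omega, ?_⟩, by omega⟩
        rw [← hPP, show i - 1 + 1 = i by omega]
        exact h3
      · rintro ⟨j, ⟨h1, h2⟩, rfl⟩
        exact ⟨⟨by omega, by omega⟩, (hPP j).2 h2⟩
    rw [e1, e2]
    have h1 : ((range N).filter fun j => j ∈ S) ⊆ insert 0 ((Icc 1 N).filter fun j => j ∈ S) := by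
      intro j hj
      rw [mem_filter, mem_range] at hj
      rw [mem_insert, mem_filter, mem_Icc]
      by_cases h0 : j = 0
      · exact Or.inl h0
      · exact Or.inr ⟨⟨by omega, by omega⟩, hj.2⟩
    have h2 : ((Icc 1 N).filter fun j => j ∈ S) ⊆ insert N ((range N).filter fun j => j ∈ S) := by
      intro j hj
      rw [mem_filter, mem_Icc] at hj
      rw [mem_insert, mem_filter, mem_range]
      by_cases h0 : j = N
      · exact Or.inl h0
      · exact Or.inr ⟨by omega, hj.2⟩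
    have h3 := (card_le_card h1).trans (card_insert_le _ _)
    have h4 := (card_le_card h2).trans (card_insert_le _ _)
    have h3' : (((range N).filter fun j => j ∈ S).card : ℝ) ≤ (((Icc 1 N).filter fun j => j ∈ S).card : ℝ) + 1 := by
      exact_mod_cast h3
    have h4' : (((Icc 1 N).filter fun j => j ∈ S).card : ℝ) ≤ (((range N).filter fun j => j ∈ S).card : ℝ) + 1 := by
      exact_mod_cast h4
    rw [abs_le]
    constructor <;> linarith
  have hdiff : Tendsto (fun N : ℕ => (((Icc 1 N).filter P).card : ℝ) / (N : ℝ) - cnt S 0 N / N)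
      atTop (𝓝 0) := by
    refine squeeze_zero_norm (fun N => ?_) (tendsto_const_div_atTop_nhds_zero_nat (1 : ℝ))
    rw [← sub_div, Real.norm_eq_abs, abs_div, Nat.abs_cast]
    exact div_le_div_of_nonneg_right (hcnt N) (Nat.cast_nonneg _)
  have := hdiff.add hlim
  rw [zero_add] at this
  refine this.congr fun N => ?_
  ring

/-- a number with the frequencies of all bases is irrational -/
theorem irrational_of_freq (x : ℝ)
    (h : ∀ b : ℕ, 2 ≤ b → ∀ α β : ℝ, 0 ≤ α → α < β → β ≤ 1 →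
      Tendsto (fun N : ℕ => cnt (pos b x α β) 0 N / N) atTop (𝓝 (β - α))) : Irrational x := by
  rintro ⟨q, rfl⟩
  have hq : 0 < q.den := q.pos
  have h1 := h (2 * q.den) (by omega) (1 / 2) 1 (by norm_num) (by norm_num) le_rfl
  have h2 : ∀ N : ℕ, cnt (pos (2 * q.den) (q : ℝ) (1 / 2) 1) 0 N = 0 := by
    intro N
    unfold cnt
    have : pos (2 * q.den) (q : ℝ) (1 / 2) 1 ∩ Set.Ioc 0 N = ∅ := by
      ext i
      simp only [Set.mem_inter_iff, Set.mem_Ioc, Set.mem_empty_iff_false, iff_false, not_and]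
      rintro ⟨h3, h4⟩ hi
      exfalso
      obtain ⟨j, rfl⟩ : ∃ j, i = j + 1 := ⟨i - 1, by omega⟩
      have h5 : (q : ℝ) * ((2 * q.den : ℕ) : ℝ) ^ (j + 1) =
          ((q.num * 2 * (2 * (q.den : ℤ)) ^ j : ℤ) : ℝ) := by
        have h6 : (q : ℝ) * (q.den : ℝ) = q.num := by exact_mod_cast Rat.mul_den_eq_num q
        push_cast
        rw [pow_succ, ← h6]
        ring
      rw [h5, Int.fract_intCast] at h3
      norm_num at h3
    rw [this, Set.ncard_empty]
    norm_num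
  simp only [h2, zero_div] at h1
  have := tendsto_nhds_unique h1 tendsto_const_nhds
  norm_num at this

end Pool.Agent.H607.CF
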