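import Pool.Agent.H607.CF.Basic
import Pool.Graph.R_pool_sql_team_seeded_620a6dc7.Helper478_Shift.Fields

/-!
# Changing one partial quotient
-/

set_option autoImplicit false

namespace Pool.Agent.H607.CF

open Finset Filter Topology
open Pool.Agent.Helper478.Shift (rangeH BadW equiW_shift)
open Pool.Agent.Helper478.Surds (EquiW)

theorem stage : ∃ γ : ℝ, 0 < γ ∧ γ ≤ 1 / 20 ∧ ∀ k : ℕ, ∃ Λ : ℝ, ∀ (c : ℕ → ℤ) (n : ℕ) (lam h : ℝ),
    Ok c → lam = 2 * Real.log (Qd c (n + 1)) → h = lam ^ (1 - γ / 2) → Λ ≤ lam →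
    ∃ A : ℤ, 1 ≤ A ∧ (A : ℝ) ≤ Real.exp (2 * h) ∧ ∀ r : ℕ, 2 ≤ r → r ≤ k → ∀ u v : ℕ,
      lam + 4 * h ≤ u * Real.log r → v * Real.log r ≤ lam + h ^ (1 + γ) → h ≤ (v : ℝ) - u →
      EquiW (V (Function.update c (n + 1) A)) r u v (1 / ((k : ℝ) + 1)) := by
  classical
  obtain ⟨γ, hγ0, hγ1, hr⟩ := rangeH
  refine ⟨γ, hγ0, hγ1, fun k => ?_⟩
  obtain ⟨H₀, hH₀⟩ := hr (-1) le_rfl (by norm_num) (by norm_num) 1 one_pos (1 / ((k : ℝ) + 1)) (by positivity)
  -- conditions on `h`
  have ev1 : ∀ᶠ h : ℝ in atTop, (h + 1) ^ (1 - γ) ≤ h := by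
    have h1 : Tendsto (fun h : ℝ => (h + 1) ^ (-γ)) atTop (𝓝 0) :=
      (tendsto_rpow_neg_atTop hγ0).comp (tendsto_atTop_add_const_right _ _ tendsto_id)
    filter_upwards [h1.eventually_lt_const (show (0 : ℝ) < 1 / 2 by norm_num), eventually_ge_atTop 1]
      with h h2 h3
    rw [sub_eq_add_neg, Real.rpow_add (by linarith), Real.rpow_one]
    nlinarith
  have ev2 : ∀ᶠ h : ℝ in atTop, Real.log ((k : ℝ) + 2) < h ^ (2 / 5 : ℝ) :=
    (tendsto_rpow_atTop (by norm_num)).eventually_gt_atTop _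
  have ev3 : ∀ᶠ h : ℝ in atTop, (H₀ : ℝ) ≤ Real.exp h := Real.tendsto_exp_atTop.eventually_ge_atTop _
  obtain ⟨h₀, hh₀⟩ := eventually_atTop.1 (ev1.and (ev2.and (ev3.and
    (eventually_ge_atTop (Real.log ((k : ℝ) + 2) + 3)))))
  have ev4 : ∀ᶠ lam : ℝ in atTop, h₀ ≤ lam ^ (1 - γ / 2) :=
    (tendsto_rpow_atTop (by linarith)).eventually_ge_atTop _
  obtain ⟨Λ, hΛ⟩ := eventually_atTop.1 (ev4.and (eventually_ge_atTop 1))
  refine ⟨Λ, ?_⟩
  intro c n lam h hc hlam hh hlamΛ
  obtain ⟨g1, g2⟩ := hΛ lam hlamΛ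
  rw [← hh] at g1
  obtain ⟨f1, f2, f3, f4⟩ := hh₀ h g1
  have hk2 : (0 : ℝ) < (k : ℝ) + 2 := by positivity
  have hlogk : 0 ≤ Real.log ((k : ℝ) + 2) := Real.log_nonneg (by
    have : (0 : ℝ) ≤ k := Nat.cast_nonneg k
    linarith)
  have hh3 : 3 ≤ h := by linarith
  set H := ⌈Real.exp h⌉₊ with hH
  have hexph : Real.exp h ≤ H := Nat.le_ceil _
  have hexp1 : (1 : ℝ) ≤ Real.exp h := Real.one_le_exp (by linarith)
  have hHle : (H : ℝ) ≤ Real.exp (h + 1) := by
    have h1 : (H : ℝ) < Real.exp h + 1 := Nat.ceil_lt_add_one (by positivity)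
    rw [Real.exp_add]
    have h2 : (2 : ℝ) ≤ Real.exp 1 := by
      have := Real.add_one_le_exp (1 : ℝ)
      linarith
    nlinarith
  have hH0 : (0 : ℝ) < H := lt_of_lt_of_le (by positivity) hexph
  set y := Real.log H with hy
  have hyh : h ≤ y := by
    rw [hy, Real.le_log_iff_exp_le hH0]
    exact hexph
  have hyh1 : y ≤ h + 1 := by
    rw [hy, Real.log_le_iff_le_exp hH0]
    exact hHle
  have hHexp : (H : ℝ) = Real.exp y := (Real.exp_log hH0).symm
  set L := y ^ (2 / 5 : ℝ) with hL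
  have hLbig : Real.log ((k : ℝ) + 2) < L := by
    refine lt_of_lt_of_le f2 ?_
    rw [hL]
    exact Real.rpow_le_rpow (by linarith) hyh (by norm_num)
  have hL0 : 0 < L := lt_of_le_of_lt hlogk hLbig
  have hkL : (k : ℝ) + 2 < Real.exp L := by
    rw [← Real.log_lt_iff_lt_exp hk2]
    exact hLbig
  have hH1 : 4 ≤ H := by
    have h1 : (4 : ℝ) ≤ H := by
      have := Real.add_one_le_exp h
      linarith
    exact_mod_cast h1
  -- the data of the continued fraction
  set Q := (Qd c (n + 1) : ℝ) with hQ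
  have hQ1 : (1 : ℝ) ≤ Q := by rw [hQ]; exact_mod_cast (Qd_pos hc n).1
  have hQlam : Q ^ 2 = Real.exp lam := by
    rw [hlam, mul_comm, Real.exp_mul, Real.exp_log (by linarith)]
    norm_cast
  have hW := hc.tail_gt (n + 1)
  set W := V (fun j => c (n + 1 + 1 + j)) with hWdef
  set σ := 1 / W + Qd c n / Q with hσ
  have hσ0 : 0 < σ := by
    have h1 : 0 < 1 / W := by positivity
    have h2 : (0 : ℝ) ≤ Qd c n / Q := by
      have : (0 : ℝ) ≤ Qd c n := by exact_mod_cast (Qd_pos hc n).2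
      positivity
    linarith
  have hσ2 : σ < 2 := by
    have h1 : 1 / W < 1 := by
      rw [div_lt_one (by linarith)]
      exact hW
    have h2 : (Qd c n : ℝ) / Q ≤ 1 := by
      rw [div_le_one (by linarith), hQ]
      exact_mod_cast Qd_le_succ hc n
    linarith
  set z := ⌈σ⌉ with hz
  have hz1 : 1 ≤ z := Int.one_le_ceil_iff.2 hσ0
  have hz2 : z ≤ 2 := by
    rw [hz, Int.ceil_le]
    exact hσ2.le
  set s := (z : ℝ) - σ with hs
  have hs0 : 0 ≤ s := by
    have := Int.le_ceil σ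
    linarith
  have hs1 : s < 1 := by
    have := Int.ceil_lt_add_one σ
    linarith
  -- the bad sets
  set w : ℕ → ℕ := fun r => ⌈(lam + y) / Real.log r⌉₊ with hw
  set xx : ℕ → ℝ := fun r => -(-1) ^ (n + 1) * ((r : ℝ) ^ (w r) / Q ^ 2) with hxx
  set cc : ℕ → ℝ := fun r => (r : ℝ) ^ (w r) * (Pd c (n + 1) / Q) with hcc
  set Bad : ℕ → Set ℕ := fun r => {m : ℕ | H < m ∧ m ≤ 2 * H ∧
    BadW H 1 γ (1 / ((k : ℝ) + 1)) (cc r + xx r * ((m : ℝ) - s) ^ (-1 : ℝ))} with hBad
  have hwr : ∀ r, 2 ≤ r → lam + y ≤ w r * Real.log r ∧ w r * Real.log r ≤ lam + y + Real.log r := by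
    intro r hr2
    have hlogr : 0 < Real.log r := Real.log_pos (by exact_mod_cast hr2)
    constructor
    · have := Nat.le_ceil ((lam + y) / Real.log r)
      rw [div_le_iff₀ hlogr] at this
      exact this
    · have h1 : (w r : ℝ) < (lam + y) / Real.log r + 1 := Nat.ceil_lt_add_one (by
        have : 0 ≤ lam + y := by linarith
        positivity)
      have h2 : (w r : ℝ) * Real.log r ≤ ((lam + y) / Real.log r + 1) * Real.log r := by gcongr
      have h3 : ((lam + y) / Real.log r + 1) * Real.log r = lam + y + Real.log r := by field_simp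
      linarith
  have hxabs : ∀ r, 2 ≤ r → |xx r| = Real.exp (w r * Real.log r - lam) := by
    intro r hr2
    simp only [hxx]
    rw [abs_mul, abs_neg, abs_pow, abs_neg, abs_one, one_pow, one_mul, abs_of_nonneg (by positivity),
      hQlam, Real.exp_sub, mul_comm (w r : ℝ), Real.exp_mul, Real.exp_log (by positivity)]
    norm_cast
  have hcount : ∀ r, 2 ≤ r → r ≤ k → ((Bad r).ncard : ℝ) ≤ H * Real.exp (-(2 * L)) := by
    intro r hr2 hrk
    obtain ⟨w1, w2⟩ := hwr r hr2
    have hrk' : (r : ℝ) ≤ k := by exact_mod_cast hrk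
    have hlogrL : Real.log r ≤ L := by
      refine le_trans (Real.log_le_log (by positivity) (by linarith)) hLbig.le
    have hH₀' : H₀ ≤ H := by exact_mod_cast f3.trans hexph
    apply hH₀ H (cc r) (xx r) s H (2 * H) hH₀' hs0 hs1
    · intro h0
      have h1 := hxabs r hr2
      rw [h0, abs_zero] at h1
      exact (Real.exp_pos _).ne h1
    · have h1 : Real.exp (-L) ≤ 1 := Real.exp_le_one_iff.2 (by linarith)
      nlinarith
    · push_cast
      have h1 : (2 : ℝ) ≤ Real.exp (3 * L) := by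
        have h2 : Real.exp L ≤ Real.exp (3 * L) := Real.exp_le_exp.2 (by linarith)
        have : (0 : ℝ) ≤ k := Nat.cast_nonneg k
        linarith
      nlinarith
    · intro N hN1 hN2
      have hN1' : (H : ℝ) ≤ N := by exact_mod_cast hN1
      have hN2' : (N : ℝ) ≤ 2 * H := by exact_mod_cast hN2
      have hN0 : (0 : ℝ) < N := lt_of_lt_of_le hH0 hN1'
      rw [hxabs r hr2, Real.rpow_neg_one, ← div_eq_mul_inv]
      have h1 : Real.exp y ≤ Real.exp (w r * Real.log r - lam) := Real.exp_le_exp.2 (by linarith)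
      have h2 : Real.exp (w r * Real.log r - lam) ≤ Real.exp (y + Real.log r) :=
        Real.exp_le_exp.2 (by linarith)
      rw [← hHexp] at h1
      rw [Real.exp_add, ← hHexp, Real.exp_log (by positivity)] at h2
      constructor
      · rw [le_div_iff₀ hN0]
        have h3 : Real.exp (-(3 * L)) ≤ 1 / 2 := by
          rw [Real.exp_neg, ← one_div]
          apply one_div_le_one_div_of_le (by norm_num)
          have h4 : Real.exp L ≤ Real.exp (3 * L) := Real.exp_le_exp.2 (by linarith)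
          have : (0 : ℝ) ≤ k := Nat.cast_nonneg k
          linarith
        calc Real.exp (-(3 * L)) * N ≤ 1 / 2 * (2 * H) := by gcongr
          _ = H := by ring
          _ ≤ _ := h1
      · rw [div_le_iff₀ hN0]
        have h3 : (r : ℝ) ≤ Real.exp (3 * L) := by
          have h4 : Real.exp L ≤ Real.exp (3 * L) := Real.exp_le_exp.2 (by linarith)
          linarith
        calc Real.exp (w r * Real.log r - lam) ≤ H * r := h2
          _ ≤ N * Real.exp (3 * L) := by gcongr
          _ = _ := by ring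
  -- a good point
  have hgood : ∃ m : ℕ, H < m ∧ m ≤ 2 * H ∧ ∀ r, 2 ≤ r → r ≤ k → m ∉ Bad r := by
    by_contra hcon
    push Not at hcon
    have hsub : ((Ioc H (2 * H) : Finset ℕ) : Set ℕ) ⊆ ⋃ r ∈ Icc 2 k, Bad r := by
      intro m hm
      rw [mem_coe, mem_Ioc] at hm
      obtain ⟨r, hr2, hrk, hrm⟩ := hcon m hm.1 hm.2
      simp only [Set.mem_iUnion]
      exact ⟨r, mem_Icc.2 ⟨hr2, hrk⟩, hrm⟩
    have hfin : ∀ r, (Bad r).Finite := fun r => (Set.finite_Iic (2 * H)).subset fun m hm => hm.2.1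
    have h1 : (H : ℝ) ≤ ∑ r ∈ Icc 2 k, ((Bad r).ncard : ℝ) := by
      have h2 : (Ioc H (2 * H)).card ≤ ∑ r ∈ Icc 2 k, (Bad r).ncard := by
        rw [← Set.ncard_coe_finset]
        refine (Set.ncard_le_ncard hsub ?_).trans ?_
        · exact Set.Finite.biUnion (Finset.finite_toSet _) fun r _ => hfin r
        · exact Finset.set_ncard_biUnion_le _ _
      rw [Nat.card_Ioc] at h2
      have h3 : 2 * H - H = H := by omega
      rw [h3] at h2
      exact_mod_cast h2
    have h2 : ∑ r ∈ Icc 2 k, ((Bad r).ncard : ℝ) ≤ k * (H * Real.exp (-(2 * L))) := by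
      refine (sum_le_sum fun r hr => hcount r (mem_Icc.1 hr).1 (mem_Icc.1 hr).2).trans ?_
      rw [sum_const, nsmul_eq_mul, Nat.card_Icc]
      have h3 : ((k + 1 - 2 : ℕ) : ℝ) ≤ k := by exact_mod_cast (by omega : k + 1 - 2 ≤ k)
      gcongr
    have h3 : (k : ℝ) * Real.exp (-(2 * L)) < 1 := by
      have h4 : (k : ℝ) * Real.exp (-(2 * L)) < Real.exp L * Real.exp (-(2 * L)) := by
        gcongr
        linarith
      rw [← Real.exp_add] at h4
      have h5 : Real.exp (L + -(2 * L)) ≤ 1 := Real.exp_le_one_iff.2 (by linarith)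
      linarith
    nlinarith
  obtain ⟨m, hm1, hm2, hm3⟩ := hgood
  refine ⟨(m : ℤ) - z, by omega, ?_, ?_⟩
  · push_cast
    have h1 : (m : ℝ) ≤ 2 * H := by exact_mod_cast hm2
    have h2 : (1 : ℝ) ≤ z := by exact_mod_cast hz1
    have h3 : Real.exp (2 * h) = Real.exp h * Real.exp h := by rw [← Real.exp_add]; ring_nf
    have h4 : (6 : ℝ) ≤ Real.exp h := by
      have h5 : (2 : ℝ) ≤ Real.exp 1 := by
        have := Real.add_one_le_exp (1 : ℝ)
        linarith
      have h6 : Real.exp 1 ^ 3 ≤ Real.exp h := by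
        rw [← Real.exp_nat_mul]
        apply Real.exp_le_exp.2
        norm_num
        linarith
      have h7 : (2 : ℝ) ^ 3 ≤ Real.exp 1 ^ 3 := by gcongr
      linarith
    have h5 : (H : ℝ) ≤ Real.exp h * 3 := by
      rw [Real.exp_add] at hHle
      have := Real.exp_one_lt_d9
      nlinarith
    nlinarith
  · intro r hr2 hrk u v hu hv huv
    obtain ⟨w1, w2⟩ := hwr r hr2
    have hlogr : 0 < Real.log r := Real.log_pos (by exact_mod_cast hr2)
    have hrk' : (r : ℝ) ≤ k := by exact_mod_cast hrk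
    have hlogrk : Real.log r ≤ Real.log ((k : ℝ) + 2) := Real.log_le_log (by positivity) (by linarith)
    have huv' : u ≤ v := by
      have : (u : ℝ) ≤ v := by linarith
      exact_mod_cast this
    have hwu : w r ≤ u := by
      by_contra hcon
      push Not at hcon
      have h1 : (u : ℝ) ≤ w r := by exact_mod_cast hcon.le
      have h2 : (u : ℝ) * Real.log r ≤ w r * Real.log r := by gcongr
      linarith
    apply equiW_shift _ r (w r) u v _ hwu huv'
    have hval : V (Function.update c (n + 1) ((m : ℤ) - z)) * (r : ℝ) ^ (w r) =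
        cc r + xx r * ((m : ℝ) - s) ^ (-1 : ℝ) := by
      rw [V_update hc n _ (by omega)]
      have h1 : ((((m : ℤ) - z : ℤ)) : ℝ) + σ = m - s := by
        rw [hs]
        push_cast
        ring
      have h2 : (0 : ℝ) < (m : ℝ) - s := by
        have : (1 : ℝ) ≤ m := by exact_mod_cast (by omega : 1 ≤ m)
        linarith
      have h3 : (((((m : ℤ) - z : ℤ)) : ℝ) + (1 / V (fun j => c (n + 2 + j)) + Qd c n / Qd c (n + 1))) = m - s := h1
      rw [h3, Real.rpow_neg_one]
      simp only [hcc, hxx]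
      rw [← hQ]
      field_simp
      ring
    rw [hval]
    by_contra hnot
    apply hm3 r hr2 hrk
    refine ⟨hm1, hm2, r, u - w r, v - w r, hr2, ?_, ?_, ?_, hnot⟩
    · have h1 : ((v - w r : ℕ) : ℝ) - ((u - w r : ℕ) : ℝ) = v - u := by
        rw [Nat.cast_sub (hwu.trans huv'), Nat.cast_sub hwu]
        ring
      rw [h1]
      refine le_trans ?_ huv
      refine le_trans ?_ f1
      exact Real.rpow_le_rpow (by linarith) hyh1 (by linarith)
    · rw [Nat.cast_sub (hwu.trans huv'), sub_mul]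
      have h1 : h ^ (1 + γ) ≤ y ^ (1 + γ) := Real.rpow_le_rpow (by linarith) hyh (by linarith)
      change (v : ℝ) * Real.log r - w r * Real.log r ≤ y ^ (1 + γ)
      linarith
    · rw [Real.rpow_one, hHexp]
      have h1 : (r : ℝ) ^ (u - w r) = Real.exp ((u - w r : ℕ) * Real.log r) := by
        rw [mul_comm, Real.exp_mul, Real.exp_log (by positivity)]
        norm_cast
      rw [h1]
      apply Real.exp_le_exp.2
      rw [Nat.cast_sub hwu, sub_mul]
      linarith

end Pool.Agent.H607.CF
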